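import Pool.Agent.P.MP_8f228a_al.Stoller

/-! Finite orbits of pointwise stabilisers, and orders of type omega. -/

namespace Pool.Agent.P.MP_8f228a_al.Cls

open Pool.Agent.P.MP_8f228a_al

variable (H : Subgroup (Equiv.Perm ℕ))

/-- The orbit of `x` under the pointwise stabiliser of `B` in `H`. -/
def Orb (B : Finset ℕ) (x : ℕ) : Set ℕ := {y | ∃ h ∈ H, (∀ b ∈ B, h b = b) ∧ h x = y}

/-- `x` has a finite orbit under the pointwise stabiliser of `B`. -/
def Alg (B : Finset ℕ) (x : ℕ) : Prop := (Orb H B x).Finite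

variable {H}

lemma alg_of_mem {B : Finset ℕ} {x : ℕ} (hx : x ∈ B) : Alg H B x := by
  refine (Set.finite_singleton x).subset ?_
  rintro y ⟨h, _, hf, rfl⟩
  exact hf x hx

lemma Alg.mono {B C : Finset ℕ} {x : ℕ} (h : Alg H B x) (hBC : B ⊆ C) : Alg H C x := by
  refine Set.Finite.subset h ?_
  rintro y ⟨g, hg, hf, rfl⟩
  exact ⟨g, hg, fun b hb => hf b (hBC hb), rfl⟩

lemma Alg.map {B : Finset ℕ} {x : ℕ} (h : Alg H B x) {g : Equiv.Perm ℕ} (hg : g ∈ H) :
    Alg H (B.image g) (g x) := by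
  refine (Set.Finite.image g h).subset ?_
  rintro y ⟨u, hu, hf, rfl⟩
  refine ⟨(g⁻¹ * u * g) x, ⟨g⁻¹ * u * g, H.mul_mem (H.mul_mem (H.inv_mem hg) hu) hg, ?_, rfl⟩, ?_⟩
  · intro b hb
    simp [hf (g b) (Finset.mem_image_of_mem _ hb)]
  · simp

lemma Alg.map' {B C : Finset ℕ} {x : ℕ} (h : Alg H B x) {g : Equiv.Perm ℕ} (hg : g ∈ H)
    (hBC : ∀ b ∈ B, g b ∈ C) : Alg H C (g x) :=
  (h.map hg).mono (fun c hc => by
    obtain ⟨b, hb, rfl⟩ := Finset.mem_image.mp hc
    exact hBC b hb)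

lemma Alg.trans {B : Finset ℕ} {y z : ℕ} (hy : Alg H B y) (hz : Alg H (insert y B) z) :
    Alg H B z := by
  classical
  have hr : ∀ y' ∈ Orb H B y, ∃ r ∈ H, (∀ b ∈ B, r b = b) ∧ r y = y' := fun y' hy' => hy'
  choose! r hr1 hr2 hr3 using hr
  refine (Set.Finite.biUnion hy (fun y' _ => Set.Finite.image (r y') hz)).subset ?_
  rintro w ⟨g, hg, hf, rfl⟩
  have hm : g y ∈ Orb H B y := ⟨g, hg, hf, rfl⟩
  refine Set.mem_biUnion hm ⟨((r (g y))⁻¹ * g) z, ⟨(r (g y))⁻¹ * g,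
    H.mul_mem (H.inv_mem (hr1 _ hm)) hg, ?_, rfl⟩, by simp⟩
  intro b hb
  rw [Equiv.Perm.mul_apply, Equiv.Perm.inv_eq_iff_eq]
  rcases Finset.mem_insert.mp hb with rfl | hb
  · exact (hr3 _ hm).symm
  · rw [hf b hb, hr2 _ hm b hb]

lemma alg_trans_union {B : Finset ℕ} {z : ℕ} (C : Finset ℕ) :
    (∀ y ∈ C, Alg H B y) → Alg H (C ∪ B) z → Alg H B z := by
  induction C using Finset.induction_on generalizing z with
  | empty => intro _ h; simpa using h
  | insert y C _ ih =>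
    intro hC hz
    refine ih (fun w hw => hC w (Finset.mem_insert_of_mem hw)) ?_
    rw [Finset.insert_union] at hz
    exact ((hC y (Finset.mem_insert_self _ _)).mono Finset.subset_union_right).trans hz

lemma Alg.cut {B C : Finset ℕ} {z : ℕ} (hz : Alg H C z) (hC : ∀ y ∈ C, Alg H B y) : Alg H B z :=
  alg_trans_union C hC (hz.mono Finset.subset_union_left)

lemma exists_move {B : Finset ℕ} {x : ℕ} (hx : ¬ Alg H B x) {F : Set ℕ} (hF : F.Finite) :
    ∃ h ∈ H, (∀ b ∈ B, h b = b) ∧ h x ∉ F := by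
  obtain ⟨y, ⟨h, h1, h2, rfl⟩, hy⟩ := Set.Infinite.exists_notMem_finite hx hF
  exact ⟨h, h1, h2, hy⟩

/-- The separation lemma of P. M. Neumann. -/
lemma separation (B C : Finset ℕ) : (∀ c ∈ C, ¬ Alg H B c) → ∀ F : Finset ℕ,
    ∃ h ∈ H, (∀ b ∈ B, h b = b) ∧ ∀ c ∈ C, h c ∉ F := by
  classical
  induction C using Finset.induction_on with
  | empty => intro _ F; exact ⟨1, H.one_mem, by simp, by simp⟩
  | insert c C _ ih =>
    intro hC F
    obtain ⟨g0, g1, g2, g3⟩ := exists_move (hC c (Finset.mem_insert_self _ _)) F.finite_toSet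
    have hr : ∀ f ∈ Orb H B c, ∃ r ∈ H, (∀ b ∈ B, r b = b) ∧ r c = f := fun f hf => hf
    choose! r hr1 hr2 hr3 using hr
    obtain ⟨h, h1, h2, h3⟩ := ih (fun w hw => hC w (Finset.mem_insert_of_mem hw))
      (F ∪ F.biUnion fun f => F.image (r f * g0⁻¹))
    by_cases hc : h c ∈ F
    · have hm : h c ∈ Orb H B c := ⟨h, h1, h2, rfl⟩
      refine ⟨(r (h c) * g0⁻¹)⁻¹ * h,
        H.mul_mem (H.inv_mem (H.mul_mem (hr1 _ hm) (H.inv_mem g1))) h1, ?_, ?_⟩
      · intro b hb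
        rw [Equiv.Perm.mul_apply, Equiv.Perm.inv_eq_iff_eq, h2 b hb, Equiv.Perm.mul_apply,
          show g0⁻¹ b = b from Equiv.Perm.inv_eq_iff_eq.mpr (g2 b hb).symm, hr2 _ hm b hb]
      · intro w hw
        rcases Finset.mem_insert.mp hw with rfl | hw
        · have : ((r (h w) * g0⁻¹)⁻¹ * h) w = g0 w := by
            rw [Equiv.Perm.mul_apply, Equiv.Perm.inv_eq_iff_eq, Equiv.Perm.mul_apply]
            simp [hr3 _ hm]
          rw [this]
          exact g3
        · intro hF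
          apply h3 w hw
          refine Finset.mem_union_right _ (Finset.mem_biUnion.mpr ⟨h c, hc, ?_⟩)
          exact Finset.mem_image.mpr ⟨_, hF, by simp⟩
    · refine ⟨h, h1, h2, ?_⟩
      intro w hw
      rcases Finset.mem_insert.mp hw with rfl | hw
      · exact hc
      · exact fun hF => h3 w hw (Finset.mem_union_left _ hF)

lemma perm_of_inj (κ : ℕ → ℕ) (hκ : Function.Injective κ) :
    ∃ u : Equiv.Perm ℕ, ∀ x y, u x < u y ↔ κ x < κ y := by
  have : Infinite (Set.range κ) := (Set.infinite_range_of_injective hκ).to_subtype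
  let e := Nat.Subtype.orderIsoOfNat (Set.range κ)
  refine ⟨(Equiv.ofInjective κ hκ).trans e.symm.toEquiv, fun x y => ?_⟩
  simp only [Equiv.trans_apply, RelIso.coe_fn_toEquiv, OrderIso.lt_iff_lt]
  rfl

lemma perm_of_key {L : Type} [LinearOrder L] (D : ℕ → L) (hD : ∀ x, {y | D y ≤ D x}.Finite) :
    ∃ u : Equiv.Perm ℕ, ∀ x y, D x < D y → u x < u y := by
  let D' : ℕ → L ×ₗ ℕ := fun x => toLex (D x, x)
  have hfin : ∀ x, {y | D' y < D' x}.Finite := fun x => (hD x).subset fun y hy => by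
    rcases Prod.Lex.toLex_lt_toLex.mp hy with h | h
    · exact h.le
    · exact h.1.le
  have hlt : ∀ x y, D' x < D' y → {w | D' w < D' x}.ncard < {w | D' w < D' y}.ncard := by
    intro x y hxy
    refine Set.ncard_lt_ncard ⟨fun w hw => lt_trans hw hxy, fun hsub => ?_⟩ (hfin y)
    exact lt_irrefl (D' x) (hsub hxy)
  obtain ⟨u, hu⟩ := perm_of_inj (fun x => {w | D' w < D' x}.ncard) (by
    intro x y hxy
    rcases lt_trichotomy (D' x) (D' y) with h | h | h
    · exact absurd hxy (hlt x y h).ne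
    · exact (Prod.ext_iff.mp (toLex.injective h)).2
    · exact absurd hxy (hlt y x h).ne')
  exact ⟨u, fun x y hxy => (hu x y).mpr (hlt x y (Prod.Lex.toLex_lt_toLex.mpr (Or.inl hxy)))⟩

lemma rev_pigeon {ι : Type} [Finite ι] (c : ℕ → ι) (j0 : ℕ) :
    ∃ i j, c i = c j ∧ j0 ≤ i ∧ i < j ∧ j0 ≤ rev j ∧ rev j < rev i := by
  have := Fintype.ofFinite ι
  obtain ⟨k, hk1, hk2⟩ : ∃ k, Fintype.card ι ≤ k ∧ j0 ≤ k :=
    ⟨max (Fintype.card ι) j0, le_max_left _ _, le_max_right _ _⟩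
  have hcard : Fintype.card ι < Fintype.card (Fin (2 * k + 1)) := by
    rw [Fintype.card_fin]; omega
  obtain ⟨i, j, hij, hcij⟩ :=
    Fintype.exists_ne_map_eq_of_card_lt (fun i : Fin (2 * k + 1) => c (k * k + i)) hcard
  have hkk : k ≤ k * k := Nat.le_mul_self k
  have key : ∀ i j : Fin (2 * k + 1), c (k * k + i) = c (k * k + j) → i < j →
      ∃ i j, c i = c j ∧ j0 ≤ i ∧ i < j ∧ j0 ≤ rev j ∧ rev j < rev i := by
    intro i j h1 h2
    have h3 : (i : ℕ) < j := h2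
    have hi := i.isLt
    have hj := j.isLt
    refine ⟨_, _, h1, by omega, by omega, ?_, ?_⟩
    · rw [rev_block k j (by omega)]; omega
    · rw [rev_block k i (by omega), rev_block k j (by omega)]; omega
  rcases lt_or_gt_of_ne hij with h1 | h1
  · exact key i j hcij h1
  · exact key j i hcij.symm h1

variable (H) in
/-- Any two orders of type omega are matched piecewise by a member of `H`. -/
def Match : Prop := ∀ u v : Equiv.Perm ℕ, ∃ h ∈ H, ∃ (k : ℕ) (c : ℕ → Fin k),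
  ∀ x y, c x = c y → u x < u y → v (h x) < v (h y)

lemma match_of_fact (hF : ∀ g : Equiv.Perm ℕ, ∃ s h, PwInc s ∧ h ∈ H ∧ g = s * h) : Match H := by
  intro u v
  obtain ⟨s1, h1, a1, b1, rfl⟩ := hF u
  obtain ⟨s2, h2, a2, b2, rfl⟩ := hF v
  have hm : s2 * s1⁻¹ ∈ stoller := stoller.mul_mem a2 (stoller.inv_mem a1)
  obtain ⟨k, c, hc⟩ := hm
  refine ⟨h2⁻¹ * h1, H.mul_mem (H.inv_mem b2) b1, k, fun x => c ((s1 * h1) x), ?_⟩
  intro x y hxy hlt
  simpa using hc _ _ hxy hlt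

/-- An order of type omega in which given finite layers come in a prescribed order. -/
lemma layer_order (L : ℕ → Finset ℕ) (hL : ∀ i j x, x ∈ L i → x ∈ L j → i = j)
    (ρ : ℕ → ℕ) (hρ : Function.Injective ρ) :
    ∃ u : Equiv.Perm ℕ, ∀ i j x y, x ∈ L i → y ∈ L j → ρ i < ρ j → u x < u y := by
  classical
  let D : ℕ → ℕ := fun x => if hx : ∃ i, x ∈ L i then ρ hx.choose else x
  have hD : ∀ i x, x ∈ L i → D x = ρ i := by
    intro i x hx
    have h1 : ∃ i, x ∈ L i := ⟨i, hx⟩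
    simp only [D, dif_pos h1]
    rw [hL _ _ x h1.choose_spec hx]
  obtain ⟨u, hu⟩ := perm_of_key D (by
    intro x
    have h1 : (ρ ⁻¹' Set.Iic (D x)).Finite := (Set.finite_Iic _).preimage hρ.injOn
    refine ((h1.biUnion fun i _ => (L i).finite_toSet).union (Set.finite_Iic (D x))).subset ?_
    intro y hy
    by_cases h2 : ∃ i, y ∈ L i
    · obtain ⟨i, hi⟩ := h2
      refine Or.inl (Set.mem_biUnion (x := i) ?_ hi)
      show ρ i ≤ D x
      rw [← hD i y hi]
      exact hy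
    · right
      have : D y = y := by simp only [D, dif_neg h2]
      show y ≤ D x
      rw [← this]
      exact hy)
  exact ⟨u, fun i j x y hx hy hij => hu x y (by rw [hD i x hx, hD j y hy]; exact hij)⟩

lemma layer_contra (hM : Match H) (L : ℕ → Finset ℕ) (hL : ∀ i j x, x ∈ L i → x ∈ L j → i = j)
    (v : Equiv.Perm ℕ) (hv : ∀ h ∈ H, ∃ (j0 : ℕ) (x : ℕ → ℕ), (∀ i, x i ∈ L i) ∧
      ∀ i, j0 ≤ i → v (h (x i)) < v (h (x (i + 1)))) : False := by
  obtain ⟨u, hu⟩ := layer_order L hL rev rev_invol.injective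
  obtain ⟨h, hh, k, c, hc⟩ := hM u v
  obtain ⟨j0, x, hx, hinc⟩ := hv h hh
  obtain ⟨i, j, h1, h2, h3, _, h5⟩ := rev_pigeon (fun i => c (x i)) j0
  have h6 := hc _ _ h1.symm (hu j i _ _ (hx j) (hx i) h5)
  have h7 : ∀ n, v (h (x i)) < v (h (x (i + n + 1))) := by
    intro n
    induction n with
    | zero => exact hinc i h2
    | succ n ih => exact ih.trans (hinc (i + n + 1) (by omega))
  have h8 := h7 (j - i - 1)
  rw [show i + (j - i - 1) + 1 = j by omega] at h8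
  omega

end Pool.Agent.P.MP_8f228a_al.Cls
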