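import Pool.Agent.P.MP_8f228a_al.AlgBasic

/-! If any two orders of type omega are matched piecewise by a transitive group, then the group
has no algebraicity. -/

namespace Pool.Agent.P.MP_8f228a_al.Cls

open Pool.Agent.P.MP_8f228a_al

variable {H : Subgroup (Equiv.Perm ℕ)}

lemma Alg.of_orb {B : Finset ℕ} {x y : ℕ} (hx : Alg H B x) (hy : y ∈ Orb H B x) :
    Alg H B y ∧ x ∈ Orb H B y := by
  obtain ⟨g, g1, g2, rfl⟩ := hy
  refine ⟨hx.map' g1 fun b hb => by rw [g2 b hb]; exact hb, g⁻¹, H.inv_mem g1, ?_, by simp⟩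
  intro b hb
  exact Equiv.Perm.inv_eq_iff_eq.mpr (g2 b hb).symm

/-- The algebraic closure of a finite set is finite. -/
theorem locally_finite (hM : Match H) (B : Finset ℕ) : {x | Alg H B x}.Finite := by
  classical
  by_contra hinf
  let code : Equiv.Perm ℕ → ℕ := fun h => Encodable.encode (fun b : B => h b)
  have hcode : ∀ h h', code h = code h' → h⁻¹ * h' ∈ {g : Equiv.Perm ℕ | ∀ b ∈ B, g b = b} := by
    intro h h' e b hb
    have := congrFun (Encodable.encode_injective e) ⟨b, hb⟩
    rw [Equiv.Perm.mul_apply, Equiv.Perm.inv_eq_iff_eq]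
    exact this.symm
  let O : ℕ → ℕ → Set ℕ := fun j x => {y | ∃ h ∈ H, code h = j ∧ h x = y}
  have hO1 : ∀ j x, Alg H B x → (O j x).Finite := by
    intro j x hx
    rcases Set.eq_empty_or_nonempty (O j x) with h | ⟨_, h0, a0, b0, _⟩
    · rw [h]; exact Set.finite_empty
    · refine (Set.Finite.image h0 hx).subset ?_
      rintro y ⟨h, a, b, rfl⟩
      exact ⟨(h0⁻¹ * h) x, ⟨h0⁻¹ * h, H.mul_mem (H.inv_mem a0) a,
        hcode h0 h (b0.trans b.symm), rfl⟩, by simp⟩
  have hO2 : ∀ j y, {x | Alg H B x ∧ y ∈ O j x}.Finite := by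
    intro j y
    rcases Set.eq_empty_or_nonempty {x | Alg H B x ∧ y ∈ O j x} with h | ⟨x0, hx0, h0, a0, b0, c0⟩
    · rw [h]; exact Set.finite_empty
    · refine Set.Finite.subset hx0 ?_
      rintro x ⟨_, h, a, b, c⟩
      refine ⟨h⁻¹ * h0, H.mul_mem (H.inv_mem a) a0, hcode h h0 (b.trans b0.symm), ?_⟩
      rw [Equiv.Perm.mul_apply, Equiv.Perm.inv_eq_iff_eq, c0, c]
  have hstep : ∀ i x, Alg H B x → ∃ x', Alg H B x' ∧ x < x' ∧
      ∀ j ≤ i, ∀ y ∈ O j x, ∀ y' ∈ O j x', y < y' := by
    intro i x hx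
    obtain ⟨M, hM'⟩ := ((Set.finite_Iic i).biUnion fun j _ => hO1 j x hx).bddAbove
    have hbad : (Set.Iic x ∪ ⋃ j ∈ Set.Iic i, ⋃ y ∈ Set.Iic M,
        {x | Alg H B x ∧ y ∈ O j x}).Finite :=
      (Set.finite_Iic x).union ((Set.finite_Iic i).biUnion fun j _ =>
        (Set.finite_Iic M).biUnion fun y _ => hO2 j y)
    obtain ⟨x', h1, h2⟩ := Set.Infinite.exists_notMem_finite hinf hbad
    refine ⟨x', h1, ?_, ?_⟩
    · by_contra h3
      exact h2 (Or.inl (not_lt.mp h3))
    · intro j hj y hy y' hy'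
      have h4 : y ≤ M := hM' (Set.mem_biUnion (x := j) hj hy)
      by_contra h3
      exact h2 (Or.inr (Set.mem_biUnion (x := j) hj
        (Set.mem_biUnion (x := y') (show y' ≤ M by omega) ⟨h1, hy'⟩)))
  choose! nx hn1 hn2 hn3 using hstep
  obtain ⟨x0, hx0⟩ := Set.Infinite.nonempty hinf
  let w : ℕ → ℕ := fun n => Nat.rec x0 (fun i x => nx i x) n
  have hw1 : ∀ n, Alg H B (w n) := by
    intro n
    induction n with
    | zero => exact hx0
    | succ n ih => exact hn1 n _ ih
  have hw2 : StrictMono w := strictMono_nat_of_lt_succ fun n => hn2 n _ (hw1 n)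
  refine layer_contra hM (fun i => {w i}) ?_ 1 ?_
  · intro i j x hi hj
    rw [Finset.mem_singleton] at hi hj
    exact hw2.injective (hi.symm.trans hj)
  · intro h hh
    refine ⟨code h, w, fun i => Finset.mem_singleton_self _, fun i hi => ?_⟩
    exact hn3 i _ (hw1 i) (code h) hi _ ⟨h, hh, rfl, rfl⟩ _ ⟨h, hh, rfl, rfl⟩

variable (H) in
/-- Interalgebraic over `B`. -/
def Inter (B : Finset ℕ) (y z : ℕ) : Prop := Alg H (insert y B) z ∧ Alg H (insert z B) y

lemma Inter.refl (B : Finset ℕ) (y : ℕ) : Inter H B y y :=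
  ⟨alg_of_mem (Finset.mem_insert_self _ _), alg_of_mem (Finset.mem_insert_self _ _)⟩

lemma Inter.symm {B : Finset ℕ} {y z : ℕ} (h : Inter H B y z) : Inter H B z y := ⟨h.2, h.1⟩

lemma Alg.step {B : Finset ℕ} {x y z : ℕ} (h1 : Alg H (insert x B) y) (h2 : Alg H (insert y B) z) :
    Alg H (insert x B) z :=
  h1.trans (h2.mono (Finset.insert_subset_insert _ (Finset.subset_insert _ _)))

lemma Inter.trans {B : Finset ℕ} {x y z : ℕ} (h1 : Inter H B x y) (h2 : Inter H B y z) :
    Inter H B x z := ⟨h1.1.step h2.1, h2.2.step h1.2⟩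

lemma Inter.mono {B C : Finset ℕ} {y z : ℕ} (h : Inter H B y z) (hBC : B ⊆ C) : Inter H C y z :=
  ⟨h.1.mono (Finset.insert_subset_insert _ hBC), h.2.mono (Finset.insert_subset_insert _ hBC)⟩

/-- An order in which interalgebraicity classes are intervals. -/
lemma tame_order (hlf : ∀ B : Finset ℕ, {x | Alg H B x}.Finite) :
    ∃ v : Equiv.Perm ℕ, ∀ j y z y' z', ¬ Alg H (Finset.range j) y → ¬ Alg H (Finset.range j) y' →
      Inter H (Finset.range j) y z → Inter H (Finset.range j) y' z' →
      ¬ Inter H (Finset.range j) y y' → v y < v y' → v z < v z' := by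
  classical
  let d : ℕ → ℕ → ℕ := fun x i =>
    if Alg H (Finset.range i) x then 0 else sInf {w | Inter H (Finset.range i) w x} + 1
  have hd0 : ∀ x i, x < i → d x i = 0 := fun x i h => by
    simp only [d, if_pos (alg_of_mem (H := H) (Finset.mem_range.mpr h))]
  let D : ℕ → Colex (ℕ →₀ ℕ) := fun x => toColex (Finsupp.onFinset (Finset.range (x + 1)) (d x)
    fun i hi => by
      by_contra h
      exact hi (hd0 x i (by simpa using h)))
  have hlt : ∀ x y, D x < D y ↔ ∃ i, (∀ j, i < j → d x j = d y j) ∧ d x i < d y i :=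
    fun x y => Finsupp.Colex.lt_iff
  have heq : ∀ x y, D x = D y → ∀ i, d x i = d y i := fun x y h i =>
    DFunLike.congr_fun (toColex.injective h) i
  have hsame : ∀ i y z, Inter H (Finset.range i) y z → d y i = d z i := by
    intro i y z h
    have h1 : Alg H (Finset.range i) y ↔ Alg H (Finset.range i) z :=
      ⟨fun a => a.trans h.1, fun a => a.trans h.2⟩
    have h2 : {w | Inter H (Finset.range i) w y} = {w | Inter H (Finset.range i) w z} :=
      Set.ext fun w => ⟨fun a => Inter.trans a h, fun a => Inter.trans a h.symm⟩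
    simp only [d, h1, h2]
  have hdiff : ∀ i y y', ¬ Alg H (Finset.range i) y → ¬ Alg H (Finset.range i) y' →
      d y i = d y' i → Inter H (Finset.range i) y y' := by
    intro i y y' h1 h2 h3
    simp only [d, if_neg h1, if_neg h2, add_left_inj] at h3
    have a1 := Nat.sInf_mem (s := {w | Inter H (Finset.range i) w y}) ⟨y, Inter.refl _ _⟩
    have a2 := Nat.sInf_mem (s := {w | Inter H (Finset.range i) w y'}) ⟨y', Inter.refl _ _⟩
    rw [h3] at a1
    exact Inter.trans (Inter.symm a1) a2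
  obtain ⟨v, hv⟩ := perm_of_key D (by
    intro x
    refine (hlf (Finset.range (x + 1))).subset fun y hy => ?_
    by_contra hn
    have h1 : d y (x + 1) ≠ 0 := by
      have hn' : ¬ Alg H (Finset.range (x + 1)) y := hn
      simp only [d, if_neg hn']
      omega
    rcases lt_or_eq_of_le (show D y ≤ D x from hy) with h | h
    · obtain ⟨i, a, b⟩ := (hlt y x).mp h
      by_cases hi : i < x + 1
      · exact h1 ((a _ hi).trans (hd0 x _ (by omega)))
      · rw [hd0 x i (by omega)] at b
        omega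
    · exact h1 ((heq y x h _).trans (hd0 x _ (by omega))))
  refine ⟨v, fun j y z y' z' h1 h2 h3 h4 h5 h6 => hv _ _ ?_⟩
  have hne : d y j ≠ d y' j := fun h => h5 (hdiff j y y' h1 h2 h)
  rcases lt_trichotomy (D y) (D y') with h | h | h
  · obtain ⟨i, a, b⟩ := (hlt y y').mp h
    have hji : j ≤ i := by
      by_contra hc
      exact hne (a j (not_le.mp hc))
    have e : ∀ n, j ≤ n → d z n = d y n ∧ d z' n = d y' n := fun n hn =>
      ⟨(hsame n y z (h3.mono (Finset.range_mono hn))).symm,
        (hsame n y' z' (h4.mono (Finset.range_mono hn))).symm⟩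
    refine (hlt z z').mpr ⟨i, fun n hn => ?_, ?_⟩
    · rw [(e n (by omega)).1, (e n (by omega)).2]
      exact a n hn
    · rw [(e i hji).1, (e i hji).2]
      exact b
  · exact absurd (heq y y' h j) hne
  · exact absurd (hv _ _ h) (not_lt.mpr h6.le)

theorem anti_exchange (hM : Match H) (B : Finset ℕ) (y z : ℕ) (hy : ¬ Alg H B y)
    (hyz : Inter H B y z) : y = z := by
  classical
  by_contra hne
  have hlf := locally_finite hM
  obtain ⟨v, hv⟩ := tame_order hlf
  have hg : ∀ F : Finset ℕ, ∃ g ∈ H, (∀ b ∈ B, g b = b) ∧ ¬ Alg H F (g y) := fun F =>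
    exists_move hy (hlf F)
  choose g g1 g2 g3 using hg
  let F : ℕ → Finset ℕ := fun n => Nat.rec B (fun i S => insert i (insert (g S y) (insert (g S z) S))) n
  have hFs : ∀ i, F (i + 1) = insert i (insert (g (F i) y) (insert (g (F i) z) (F i))) :=
    fun i => rfl
  have hFm : Monotone F := monotone_nat_of_le_succ fun i => by
    rw [hFs]
    exact ((Finset.subset_insert _ _).trans (Finset.subset_insert _ _)).trans
      (Finset.subset_insert _ _)
  have hBF : ∀ i, B ⊆ F i := fun i => hFm (Nat.zero_le i)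
  let Y : ℕ → ℕ := fun i => g (F i) y
  let Z : ℕ → ℕ := fun i => g (F i) z
  have hI : ∀ i, Inter H B (Y i) (Z i) := fun i =>
    ⟨hyz.1.map' (g1 _) fun b hb => by
        rcases Finset.mem_insert.mp hb with rfl | hb
        · exact Finset.mem_insert_self _ _
        · rw [g2 _ b hb]; exact Finset.mem_insert_of_mem hb,
      hyz.2.map' (g1 _) fun b hb => by
        rcases Finset.mem_insert.mp hb with rfl | hb
        · exact Finset.mem_insert_self _ _
        · rw [g2 _ b hb]; exact Finset.mem_insert_of_mem hb⟩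
  have hY : ∀ i, ¬ Alg H (F i) (Y i) := fun i => g3 _
  have hZ : ∀ i, ¬ Alg H (F i) (Z i) := fun i h => hY i (h.trans ((hI i).mono (hBF i)).2)
  have hYF : ∀ i j, i < j → Y i ∈ F j := fun i j h => hFm (show i + 1 ≤ j from h) (by
    rw [hFs]; simp [Y])
  have hZF : ∀ i j, i < j → Z i ∈ F j := fun i j h => hFm (show i + 1 ≤ j from h) (by
    rw [hFs]; simp [Z])
  have hnF : ∀ i j, i < j → i ∈ F j := fun i j h => hFm (show i + 1 ≤ j from h) (by
    rw [hFs]; simp)
  have hYZ : ∀ i j, Y i ≠ Z j := by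
    intro i j h
    rcases lt_trichotomy i j with a | rfl | a
    · exact hZ j (alg_of_mem (h ▸ hYF i j a))
    · exact hne ((g (F i)).injective h)
    · exact hY i (alg_of_mem (h ▸ hZF j i a))
  have hYY : Function.Injective Y := by
    intro i j h
    rcases lt_trichotomy i j with a | a | a
    · exact absurd (alg_of_mem (h ▸ hYF i j a)) (hY j)
    · exact a
    · exact absurd (alg_of_mem (h ▸ hYF j i a)) (hY i)
  have hZZ : Function.Injective Z := by
    intro i j h
    rcases lt_trichotomy i j with a | a | a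
    · exact absurd (alg_of_mem (h ▸ hZF i j a)) (hZ j)
    · exact a
    · exact absurd (alg_of_mem (h ▸ hZF j i a)) (hZ i)
  let W : ℕ → ℕ := fun n => if n % 2 = 0 then Y (n / 2) else Z (rev (n / 2))
  have hW0 : ∀ n, W (2 * n) = Y n := fun n => by
    simp only [W, if_pos (show 2 * n % 2 = 0 by omega), show 2 * n / 2 = n by omega]
  have hW1 : ∀ n, W (2 * n + 1) = Z (rev n) := fun n => by
    simp only [W, if_neg (show ¬ (2 * n + 1) % 2 = 0 by omega), show (2 * n + 1) / 2 = n by omega]
  obtain ⟨u, hu⟩ := layer_order (fun n => {W n}) (by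
    intro i j x hi hj
    rw [Finset.mem_singleton] at hi hj
    have h := hi.symm.trans hj
    obtain ⟨a, rfl | rfl⟩ := Nat.even_or_odd' i <;> obtain ⟨b, rfl | rfl⟩ := Nat.even_or_odd' j
    · rw [hW0, hW0] at h; rw [hYY h]
    · rw [hW0, hW1] at h; exact absurd h (hYZ _ _)
    · rw [hW0, hW1] at h; exact absurd h.symm (hYZ _ _)
    · rw [hW1, hW1] at h; rw [rev_invol.injective (hZZ h)]) id Function.injective_id
  obtain ⟨h, hh, k, c, hc⟩ := hM u v
  obtain ⟨j0, hj0⟩ : ∃ j0, ∀ b ∈ B, h b ∈ Finset.range j0 :=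
    ⟨B.sup h + 1, fun b hb => Finset.mem_range.mpr (Nat.lt_succ_of_le (Finset.le_sup (f := h) hb))⟩
  obtain ⟨i0, hi0⟩ : ∃ i0, ∀ b ∈ Finset.range j0, h⁻¹ b < i0 :=
    ⟨(Finset.range j0).sup (fun b => h⁻¹ b) + 1, fun b hb =>
      Nat.lt_succ_of_le (Finset.le_sup (f := fun b => h⁻¹ b) hb)⟩
  have hback : ∀ (C : Finset ℕ) (i : ℕ), (∀ b ∈ C, h⁻¹ b ∈ F i) → ¬ Alg H C (h (Y i)) := by
    intro C i hC a
    have := a.map' (H.inv_mem hh) hC
    rw [show h⁻¹ (h (Y i)) = Y i by simp] at this
    exact hY i this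
  have hJ : ∀ i, Inter H (Finset.range j0) (h (Y i)) (h (Z i)) := fun i =>
    ⟨(hI i).1.map' hh fun b hb => by
        rcases Finset.mem_insert.mp hb with rfl | hb
        · exact Finset.mem_insert_self _ _
        · exact Finset.mem_insert_of_mem (hj0 b hb),
      (hI i).2.map' hh fun b hb => by
        rcases Finset.mem_insert.mp hb with rfl | hb
        · exact Finset.mem_insert_self _ _
        · exact Finset.mem_insert_of_mem (hj0 b hb)⟩
  obtain ⟨n, m, h1, _, h3, h4, h5⟩ := rev_pigeon (fun n => (c (Y (rev n)), c (Z (rev n)))) i0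
  rw [Prod.mk.injEq] at h1
  have a1 : v (h (Z (rev n))) < v (h (Z (rev m))) := hc _ _ h1.2
    (hu (2 * n + 1) (2 * m + 1) _ _ (by rw [hW1]; simp) (by rw [hW1]; simp) (by simp; omega))
  have a2 : v (h (Y (rev m))) < v (h (Y (rev n))) := hc _ _ h1.1.symm
    (hu (2 * rev m) (2 * rev n) _ _ (by rw [hW0]; simp) (by rw [hW0]; simp) (by simp; omega))
  have a3 := hv j0 _ _ _ _
    (hback _ (rev m) fun b hb => hnF _ _ (lt_of_lt_of_le (hi0 b hb) h4))
    (hback _ (rev n) fun b hb => hnF _ _ (lt_of_lt_of_le (hi0 b hb) (by omega)))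
    (hJ (rev m)) (hJ (rev n))
    (fun a => hback _ (rev n) (fun b hb => by
      rcases Finset.mem_insert.mp hb with rfl | hb
      · rw [show h⁻¹ (h (Y (rev m))) = Y (rev m) by simp]
        exact hYF _ _ h5
      · exact hnF _ _ (lt_of_lt_of_le (hi0 b hb) (by omega))) a.1) a2
  omega

lemma not_alg_empty (ht : ∀ a b, ∃ h ∈ H, h a = b) (x : ℕ) : ¬ Alg H ∅ x := by
  intro h
  refine Set.infinite_univ (Set.Finite.subset h fun y _ => ?_)
  obtain ⟨g, g1, g2⟩ := ht x y
  exact ⟨g, g1, by simp, g2⟩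

/-- An order whose initial segments are algebraically closed. -/
lemma shell_order (hlf : ∀ B : Finset ℕ, {x | Alg H B x}.Finite)
    (hae : ∀ (B : Finset ℕ) (y z : ℕ), ¬ Alg H B y → Inter H B y z → y = z)
    (h0 : ∀ x, ¬ Alg H ∅ x) :
    ∃ v : Equiv.Perm ℕ, ∀ (T : Finset ℕ) (z : ℕ), Alg H T z → z ∉ T → ∃ t ∈ T, v z < v t := by
  classical
  have hstep : ∀ C : Finset ℕ, (∀ x, Alg H C x → x ∈ C) → ∃ z, z ∉ C ∧
      Alg H (insert (sInf {n | n ∉ C}) C) z ∧ ∀ x, Alg H (insert z C) x → x ∈ insert z C := by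
    intro C hC
    have hn : sInf {n | n ∉ C} ∉ C :=
      Nat.sInf_mem (s := {n | n ∉ C}) (Infinite.exists_notMem_finset C)
    obtain ⟨z, ⟨a1, a2⟩, a3⟩ := exists_minimalFor_of_wellFoundedLT
      (fun z => z ∉ C ∧ Alg H (insert (sInf {n | n ∉ C}) C) z)
      (fun z => {x | Alg H (insert z C) x}.ncard)
      ⟨_, hn, alg_of_mem (Finset.mem_insert_self _ _)⟩
    refine ⟨z, a1, a2, fun x hx => ?_⟩
    by_contra hxC
    rw [Finset.mem_insert, not_or] at hxC
    have hsub : {w | Alg H (insert x C) w} ⊆ {w | Alg H (insert z C) w} := fun w hw => hx.step hw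
    have hle := a3 (j := x) ⟨hxC.2, a2.step hx⟩ (Set.ncard_le_ncard hsub (hlf _))
    have heq := Set.eq_of_subset_of_ncard_le hsub hle (hlf _)
    have hz : z ∈ {w | Alg H (insert x C) w} := by
      rw [heq]
      exact alg_of_mem (Finset.mem_insert_self _ _)
    exact hxC.1 (hae C x z (fun a => hxC.2 (hC x a)) ⟨hz, hx⟩)
  choose! nz n1 n2 n3 using hstep
  let C : ℕ → Finset ℕ := fun n => Nat.rec ∅ (fun _ S => insert (nz S) S) n
  have hCs : ∀ i, C (i + 1) = insert (nz (C i)) (C i) := fun i => rfl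
  have hCc : ∀ i x, Alg H (C i) x → x ∈ C i := by
    intro i
    induction i with
    | zero => exact fun x hx => absurd hx (h0 x)
    | succ i ih => exact n3 _ ih
  have hCm : Monotone C := monotone_nat_of_le_succ fun i => Finset.subset_insert _ _
  have hCcard : ∀ i, (C i).card = i := by
    intro i
    induction i with
    | zero => rfl
    | succ i ih => rw [hCs, Finset.card_insert_of_notMem (n1 _ (hCc i)), ih]
  have hex : ∀ n, ∃ i, ∀ m < n, m ∈ C i := by
    intro n
    induction n with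
    | zero => exact ⟨0, by simp⟩
    | succ n ih =>
      obtain ⟨i, hi⟩ := ih
      have : ∃ j, n ∈ C (i + j) := by
        by_contra hno
        push Not at hno
        have hin : ∀ j, ∀ x ∈ C (i + j), Alg H (insert n (C i)) x := by
          intro j
          induction j with
          | zero => exact fun x hx => alg_of_mem (Finset.mem_insert_of_mem hx)
          | succ j ihj =>
            intro x hx
            rw [← add_assoc, hCs] at hx
            rcases Finset.mem_insert.mp hx with rfl | hx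
            · have e : sInf {n | n ∉ C (i + j)} = n := by
                refine le_antisymm (Nat.sInf_le (hno j)) (le_of_not_gt fun hlt => ?_)
                exact Nat.sInf_mem (s := {n | n ∉ C (i + j)}) ⟨n, hno j⟩
                  (hCm (Nat.le_add_right i j) (hi _ hlt))
              have a := n2 _ (hCc (i + j))
              rw [e] at a
              refine a.cut fun y hy => ?_
              rcases Finset.mem_insert.mp hy with rfl | hy
              · exact alg_of_mem (Finset.mem_insert_self _ _)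
              · exact ihj y hy
            · exact ihj x hx
        obtain ⟨N, hN⟩ : ∃ N, N = (hlf (insert n (C i))).toFinset.card + 1 := ⟨_, rfl⟩
        have hle := Finset.card_le_card (s := C (i + N))
          (t := (hlf (insert n (C i))).toFinset) fun x hx => by simpa using hin N x hx
        rw [hCcard] at hle
        omega
      obtain ⟨j, hj⟩ := this
      refine ⟨i + j, fun m hm => ?_⟩
      rcases Nat.lt_succ_iff_lt_or_eq.mp hm with a | rfl
      · exact hCm (Nat.le_add_right i j) (hi m a)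
      · exact hj
  have hex' : ∀ x, ∃ i, x ∈ C (i + 1) := fun x => by
    obtain ⟨i, hi⟩ := hex (x + 1)
    exact ⟨i, hCm (Nat.le_succ i) (hi x (Nat.lt_succ_self x))⟩
  let κ : ℕ → ℕ := fun x => Nat.find (hex' x)
  have hκ1 : ∀ x, x ∈ C (κ x + 1) := fun x => Nat.find_spec (hex' x)
  have hκ2 : ∀ x i, x ∈ C (i + 1) → κ x ≤ i := fun x i h => Nat.find_min' (hex' x) h
  have hκ3 : ∀ x, x = nz (C (κ x)) := by
    intro x
    have a := hκ1 x
    rw [hCs] at a
    rcases Finset.mem_insert.mp a with a | a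
    · exact a
    · exfalso
      rcases Nat.eq_zero_or_pos (κ x) with b | b
      · rw [b] at a
        exact Finset.notMem_empty x a
      · have := hκ2 x (κ x - 1) (by rw [Nat.sub_add_cancel b]; exact a)
        omega
  have hinj : Function.Injective κ := fun x y h => by rw [hκ3 x, hκ3 y, h]
  obtain ⟨v, hv⟩ := perm_of_inj κ hinj
  refine ⟨v, fun T z hz hzT => ?_⟩
  have hT : T.Nonempty := by
    rw [Finset.nonempty_iff_ne_empty]
    rintro rfl
    exact h0 z hz
  obtain ⟨t, ht, hmax⟩ := Finset.exists_max_image T κ hT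
  refine ⟨t, ht, (hv z t).mpr (lt_of_le_of_ne (hκ2 z (κ t) (hCc (κ t + 1) z (hz.mono fun w hw => ?_))) ?_)⟩
  · exact hCm (Nat.succ_le_succ (hmax w hw)) (hκ1 w)
  · intro h
    exact hzT (hinj h ▸ ht)

theorem no_alg (hM : Match H) (ht : ∀ a b, ∃ h ∈ H, h a = b) (B : Finset ℕ) (x : ℕ)
    (hx : x ∉ B) : ¬ Alg H B x := by
  classical
  intro hB
  have hlf := locally_finite hM
  have hae := anti_exchange hM
  have h0 := not_alg_empty ht
  obtain ⟨v, hv⟩ := shell_order hlf hae h0
  have hsing : ∀ t z, Alg H (insert t ∅) z → t = z := by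
    intro t z h
    obtain ⟨g, g1, g2⟩ := ht t z
    have hsub : {w | Alg H (insert z ∅) w} ⊆ {w | Alg H (insert t ∅) w} := fun w hw => h.step hw
    have hle : {w | Alg H (insert t ∅) w}.ncard ≤ {w | Alg H (insert z ∅) w}.ncard :=
      Set.ncard_le_ncard_of_injOn g (fun w hw => Alg.map' hw g1 (by simp [g2])) g.injective.injOn
        (hlf _)
    have heq := Set.eq_of_subset_of_ncard_le hsub hle (hlf _)
    have hz : t ∈ {w | Alg H (insert z ∅) w} := by
      rw [heq]
      exact alg_of_mem (Finset.mem_insert_self _ _)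
    exact hae ∅ t z (h0 t) ⟨h, hz⟩
  have hav : ∀ (z : ℕ) (F : Finset ℕ), ∃ T : Finset ℕ, Alg H T z ∧ ∀ t ∈ T, t ∉ F := by
    intro z F
    obtain ⟨g, g1, g2⟩ := ht x z
    have a1 : Alg H (B.image g) z := g2 ▸ hB.map g1
    obtain ⟨h, h1, h2, h3⟩ := separation (H := H) (insert z ∅) (B.image g) (by
      intro c hc a
      obtain ⟨b, hb, rfl⟩ := Finset.mem_image.mp hc
      have := hsing _ _ a
      rw [← g2] at this
      exact hx (g.injective this ▸ hb)) F
    refine ⟨(B.image g).image h, ?_, ?_⟩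
    · have := a1.map h1
      rwa [h2 z (by simp)] at this
    · intro t ht'
      obtain ⟨c, hc, rfl⟩ := Finset.mem_image.mp ht'
      exact h3 c hc
  choose T T1 T2 using hav
  let U : ℕ → Finset ℕ := fun n => Nat.rec {0} (fun _ S => S ∪ S.biUnion fun z => T z S) n
  have hUs : ∀ i, U (i + 1) = U i ∪ (U i).biUnion fun z => T z (U i) := fun i => rfl
  have hUm : Monotone U := monotone_nat_of_le_succ fun i => Finset.subset_union_left
  let L : ℕ → Finset ℕ := fun i => (U i).biUnion fun z => T z (U i)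
  have hL1 : ∀ i, ∀ y ∈ L i, y ∉ U i := by
    intro i y hy
    obtain ⟨z, _, hz⟩ := Finset.mem_biUnion.mp hy
    exact T2 z _ y hz
  have hL2 : ∀ i j, i < j → L i ⊆ U j := fun i j h =>
    Finset.Subset.trans Finset.subset_union_right (hUm (show i + 1 ≤ j from h))
  refine layer_contra hM L ?_ v ?_
  · intro i j y hi hj
    rcases lt_trichotomy i j with a | a | a
    · exact absurd (hL2 i j a hi) (hL1 j y hj)
    · exact a
    · exact absurd (hL2 j i a hj) (hL1 i y hi)
  · intro h hh
    have hnext : ∀ i, ∀ y ∈ U i, ∃ t ∈ L i, v (h y) < v (h t) := by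
      intro i y hy
      obtain ⟨t, a1, a2⟩ := hv _ _ ((T1 y (U i)).map hh) (by
        intro a
        obtain ⟨b, hb, e⟩ := Finset.mem_image.mp a
        exact T2 y _ b hb (h.injective e ▸ hy))
      obtain ⟨b, hb, rfl⟩ := Finset.mem_image.mp a1
      exact ⟨b, Finset.mem_biUnion.mpr ⟨y, hy, hb⟩, a2⟩
    choose! nx m1 m2 using hnext
    let w : ℕ → ℕ := fun n => Nat.rec (nx 0 0) (fun i y => nx (i + 1) y) n
    have hw : ∀ i, w i ∈ L i := by
      intro i
      induction i with
      | zero => exact m1 0 0 (Finset.mem_singleton_self 0)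
      | succ i ih => exact m1 (i + 1) _ (hL2 i _ (Nat.lt_succ_self i) ih)
    exact ⟨0, w, hw, fun i _ => m2 (i + 1) _ (hL2 i _ (Nat.lt_succ_self i) (hw i))⟩

end Pool.Agent.P.MP_8f228a_al.Cls
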