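import Pool.Agent.P.MP_8f228a_al.AlgBasic

/-! Back and forth with two increasing pieces for a closed group without algebraicity. -/

namespace Pool.Agent.P.MP_8f228a_al.Cls

open Pool.Agent.P.MP_8f228a_al

variable {H : Subgroup (Equiv.Perm ℕ)}

variable (H) in
/-- Finite stages of the back-and-forth construction. -/
structure Stage (e f : Equiv.Perm ℕ) (P : Finset (ℕ × ℕ)) : Prop where
  iso : ∃ h ∈ H, ∀ p ∈ P, h (e p.1) = f p.2
  ne : ∀ p ∈ P, p.1 ≠ p.2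
  up : ∀ p ∈ P, ∀ q ∈ P, p.1 < p.2 → q.1 < q.2 → p.1 < q.1 → p.2 < q.2
  down : ∀ p ∈ P, ∀ q ∈ P, p.2 < p.1 → q.2 < q.1 → p.2 < q.2 → p.1 < q.1
  upInit : ∀ p ∈ P, p.1 < p.2 → ∀ a, a < p.1 → ∃ b, (a, b) ∈ P
  downInit : ∀ p ∈ P, p.2 < p.1 → ∀ b, b < p.2 → ∃ a, (a, b) ∈ P

theorem Stage.swap {e f : Equiv.Perm ℕ} {P : Finset (ℕ × ℕ)} (h : Stage H e f P) :
    Stage H f e (P.image Prod.swap) := by
  constructor
  · obtain ⟨g, g1, g2⟩ := h.iso
    refine ⟨g⁻¹, H.inv_mem g1, ?_⟩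
    simp only [Finset.forall_mem_image]
    intro p hp
    exact Equiv.Perm.inv_eq_iff_eq.mpr (g2 p hp).symm
  · simp only [Finset.forall_mem_image]
    intro p hp
    exact (h.ne p hp).symm
  · simp only [Finset.forall_mem_image]
    intro p hp q hq
    exact h.down p hp q hq
  · simp only [Finset.forall_mem_image]
    intro p hp q hq
    exact h.up p hp q hq
  · simp only [Finset.forall_mem_image]
    intro p hp h1 a ha
    obtain ⟨b, hb⟩ := h.downInit p hp h1 a ha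
    exact ⟨b, Finset.mem_image.mpr ⟨(b, a), hb, rfl⟩⟩
  · simp only [Finset.forall_mem_image]
    intro p hp h1 a ha
    obtain ⟨b, hb⟩ := h.upInit p hp h1 a ha
    exact ⟨b, Finset.mem_image.mpr ⟨(a, b), hb, rfl⟩⟩

theorem stage_step (hna : ∀ (B : Finset ℕ) (x : ℕ), x ∉ B → ¬ Alg H B x) {e f : Equiv.Perm ℕ}
    {P : Finset (ℕ × ℕ)} (h : Stage H e f P) (n : ℕ) (hlow : ∀ a, a < n → ∃ b, (a, b) ∈ P) :
    ∃ Q, P ⊆ Q ∧ Stage H e f Q ∧ ∃ b, (n, b) ∈ Q := by
  classical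
  by_cases hn : ∃ b, (n, b) ∈ P
  · exact ⟨P, subset_rfl, h, hn⟩
  have hPn : ∀ p ∈ P, p.1 ≠ n := fun p hp hpn => hn ⟨p.2, by rw [← hpn]; exact hp⟩
  obtain ⟨g, g1, g2⟩ := h.iso
  obtain ⟨r, r1, r2, r3⟩ := exists_move (hna (P.image fun p => e p.1) (e n) (by
    intro a
    obtain ⟨p, hp, b⟩ := Finset.mem_image.mp a
    exact hPn p hp (e.injective b)))
    ((Set.finite_Iic (max n (P.sup Prod.snd))).image fun y => g⁻¹ (f y))
  obtain ⟨m, hm0⟩ : ∃ m, m = f⁻¹ (g (r (e n))) := ⟨_, rfl⟩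
  have hm : max n (P.sup Prod.snd) < m := by
    by_contra a
    exact r3 ⟨m, not_lt.mp a, by simp [hm0]⟩
  have hnm : n < m := lt_of_le_of_lt (le_max_left _ _) hm
  have hPm : ∀ p ∈ P, p.2 < m := fun p hp =>
    lt_of_le_of_lt ((Finset.le_sup (f := Prod.snd) hp).trans (le_max_right _ _)) hm
  have hPn' : ∀ p ∈ P, p.1 < p.2 → p.1 < n := by
    intro p hp hlt
    rcases lt_trichotomy p.1 n with h3 | h3 | h3
    · exact h3
    · exact absurd h3 (hPn p hp)
    · exact absurd (h.upInit p hp hlt n h3) hn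
  refine ⟨insert (n, m) P, Finset.subset_insert _ _, ?_, m, Finset.mem_insert_self _ _⟩
  constructor
  · refine ⟨g * r, H.mul_mem g1 r1, fun p hp => ?_⟩
    rcases Finset.mem_insert.mp hp with rfl | hp
    · simp [hm0]
    · rw [Equiv.Perm.mul_apply, r2 _ (Finset.mem_image_of_mem (fun p => e p.1) hp), g2 p hp]
  · intro p hp
    rcases Finset.mem_insert.mp hp with rfl | hp
    · exact hnm.ne
    · exact h.ne p hp
  · intro p hp q hq
    rcases Finset.mem_insert.mp hp with rfl | hp <;> rcases Finset.mem_insert.mp hq with rfl | hq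
    · simp
    · intro _ h3 h4
      have := hPn' q hq h3
      simp only at h4
      omega
    · intro _ _ _
      exact hPm p hp
    · exact h.up p hp q hq
  · intro p hp q hq
    rcases Finset.mem_insert.mp hp with rfl | hp <;> rcases Finset.mem_insert.mp hq with rfl | hq
    · simp
    · intro h3
      simp only at h3
      omega
    · intro _ h3
      simp only at h3
      omega
    · exact h.down p hp q hq
  · intro p hp hlt a ha
    rcases Finset.mem_insert.mp hp with rfl | hp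
    · obtain ⟨b, hb⟩ := hlow a ha
      exact ⟨b, Finset.mem_insert_of_mem hb⟩
    · obtain ⟨b, hb⟩ := h.upInit p hp hlt a ha
      exact ⟨b, Finset.mem_insert_of_mem hb⟩
  · intro p hp hlt b hb
    rcases Finset.mem_insert.mp hp with rfl | hp
    · simp only at hlt
      omega
    · obtain ⟨a, ha⟩ := h.downInit p hp hlt b hb
      exact ⟨a, Finset.mem_insert_of_mem ha⟩

theorem stage_forth (hna : ∀ (B : Finset ℕ) (x : ℕ), x ∉ B → ¬ Alg H B x) {e f : Equiv.Perm ℕ}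
    (n : ℕ) : ∀ {P : Finset (ℕ × ℕ)}, Stage H e f P →
    ∃ Q, P ⊆ Q ∧ Stage H e f Q ∧ ∀ a, a < n → ∃ b, (a, b) ∈ Q := by
  induction n with
  | zero => intro P h; exact ⟨P, subset_rfl, h, by simp⟩
  | succ n ih =>
    intro P h
    obtain ⟨Q, hPQ, hQ, hlow⟩ := ih h
    obtain ⟨R, hQR, hR, hb⟩ := stage_step hna hQ n hlow
    refine ⟨R, hPQ.trans hQR, hR, ?_⟩
    intro a ha
    rcases Nat.lt_succ_iff_lt_or_eq.mp ha with h1 | rfl
    · obtain ⟨b, hb⟩ := hlow a h1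
      exact ⟨b, hQR hb⟩
    · exact hb

theorem stage_both (hna : ∀ (B : Finset ℕ) (x : ℕ), x ∉ B → ¬ Alg H B x) {e f : Equiv.Perm ℕ}
    (n : ℕ) {P : Finset (ℕ × ℕ)} (h : Stage H e f P) :
    ∃ Q, P ⊆ Q ∧ Stage H e f Q ∧ (∃ b, (n, b) ∈ Q) ∧ ∃ a, (a, n) ∈ Q := by
  classical
  obtain ⟨Q, hPQ, hQ, hlow⟩ := stage_forth hna (n + 1) h
  obtain ⟨R, hQR, hR, hlow'⟩ := stage_forth hna (n + 1) hQ.swap
  have hsub : Q ⊆ R.image Prod.swap := by
    intro p hp
    exact Finset.mem_image.mpr ⟨p.swap, hQR (Finset.mem_image_of_mem _ hp), by simp⟩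
  refine ⟨R.image Prod.swap, hPQ.trans hsub, hR.swap, ?_, ?_⟩
  · obtain ⟨b, hb⟩ := hlow n (by omega)
    exact ⟨b, hsub hb⟩
  · obtain ⟨a, ha⟩ := hlow' n (by omega)
    exact ⟨a, Finset.mem_image.mpr ⟨(n, a), ha, rfl⟩⟩

theorem two_piece (hna : ∀ (B : Finset ℕ) (x : ℕ), x ∉ B → ¬ Alg H B x)
    (hcl : ∀ g : Equiv.Perm ℕ, (∀ n, ∃ h ∈ H, ∀ x < n, h x = g x) → g ∈ H) (g : Equiv.Perm ℕ) :
    ∃ s : Equiv.Perm ℕ, ∃ h ∈ H, g = s * h ∧
      ∃ c : ℕ → Fin 2, ∀ x y, c x = c y → x < y → s x < s y := by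
  classical
  choose F hF1 hF2 hF3 using
    fun (n : ℕ) (P : {P : Finset (ℕ × ℕ) // Stage H 1 g⁻¹ P}) => stage_both hna n P.2
  have h0 : Stage H 1 g⁻¹ ∅ := by
    constructor
    · exact ⟨1, H.one_mem, by simp⟩
    all_goals simp
  let S' : ℕ → {P : Finset (ℕ × ℕ) // Stage H 1 g⁻¹ P} := fun n =>
    Nat.rec ⟨∅, h0⟩ (fun n P => ⟨F n P, hF2 n P⟩) n
  obtain ⟨S, hmono, hgood, hS⟩ : ∃ S : ℕ → Finset (ℕ × ℕ), Monotone S ∧
      (∀ n, Stage H 1 g⁻¹ (S n)) ∧ ∀ n, (∃ b, (n, b) ∈ S (n + 1)) ∧ ∃ a, (a, n) ∈ S (n + 1) :=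
    ⟨fun n => (S' n).1, monotone_nat_of_le_succ (fun n => hF1 n (S' n)), fun n => (S' n).2,
      fun n => hF3 n (S' n)⟩
  choose s hs using fun n => (hS n).1
  have hboth : ∀ {p q : ℕ × ℕ} {i j : ℕ}, p ∈ S i → q ∈ S j → ∃ k, p ∈ S k ∧ q ∈ S k :=
    fun {p q i j} hp hq =>
      ⟨max i j, hmono (le_max_left _ _) hp, hmono (le_max_right _ _) hq⟩
  have hinj : Function.Injective s := by
    intro x y hxy
    obtain ⟨k, h1, h2⟩ := hboth (hs x) (hs y)
    obtain ⟨h, _, a⟩ := (hgood k).iso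
    have a1 := a _ h1
    have a2 := a _ h2
    simp only [Equiv.Perm.coe_one, id_eq] at a1 a2
    rw [hxy, ← a2] at a1
    exact h.injective a1
  have hsurj : Function.Surjective s := by
    intro n
    obtain ⟨x, hx⟩ := (hS n).2
    refine ⟨x, ?_⟩
    obtain ⟨k, h1, h2⟩ := hboth (hs x) hx
    obtain ⟨h, _, a⟩ := (hgood k).iso
    exact g⁻¹.injective ((a _ h1).symm.trans (a _ h2))
  have hmem : g⁻¹ * Equiv.ofBijective s ⟨hinj, hsurj⟩ ∈ H := by
    refine hcl _ fun n => ?_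
    obtain ⟨h, a, b⟩ := (hgood n).iso
    exact ⟨h, a, fun x hx => b _ (hmono (show x + 1 ≤ n from hx) (hs x))⟩
  refine ⟨Equiv.ofBijective s ⟨hinj, hsurj⟩, _, H.inv_mem hmem, by simp,
    fun x => if x < s x then 0 else 1, ?_⟩
  intro x y hxy hlt
  show s x < s y
  obtain ⟨k, h1, h2⟩ := hboth (hs x) (hs y)
  by_cases hx : x < s x
  · have hy : y < s y := by
      by_contra hy
      simp [hx, hy] at hxy
    exact (hgood k).up _ h1 _ h2 hx hy hlt
  · have hy : ¬ y < s y := by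
      intro hy
      simp [hx, hy] at hxy
    have hx' : s x < x := lt_of_le_of_ne (not_lt.mp hx) ((hgood k).ne _ h1).symm
    have hy' : s y < y := lt_of_le_of_ne (not_lt.mp hy) ((hgood k).ne _ h2).symm
    rcases lt_trichotomy (s x) (s y) with h | h | h
    · exact h
    · have := hinj h
      omega
    · have := (hgood k).down _ h2 _ h1 hy' hx' h
      simp only at this
      omega

end Pool.Agent.P.MP_8f228a_al.Cls
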