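import Pool.Agent.P.MP_8f228a_al.AlgBasic

/-! Back and forth in rounds for a closed group whose algebraic closure is locally finite and of
bounded rank. -/

namespace Pool.Agent.P.MP_8f228a_al.Cls

open Pool.Agent.P.MP_8f228a_al

variable {H : Subgroup (Equiv.Perm ℕ)}

variable (H) in
/-- The algebraic closure has rank functions with values below `k`. -/
def Ranked (k : ℕ) : Prop := ∀ B : Finset ℕ, ∃ r : ℕ → Fin k, ∀ (T : Finset ℕ) (z : ℕ), z ∉ T →
  Alg H (B ∪ T) z → ¬ Alg H B z → ∃ t ∈ T, r t < r z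

variable (H) in
/-- The finite relation is a restriction of a member of the group. -/
def PIso (e f : Equiv.Perm ℕ) (P : Finset (ℕ × ℕ)) : Prop := ∃ h ∈ H, ∀ p ∈ P, h (e p.1) = f p.2

variable (H) in
/-- The domain of the finite relation is algebraically closed. -/
def PCl (e : Equiv.Perm ℕ) (P : Finset (ℕ × ℕ)) : Prop :=
  ∀ x, Alg H (P.image fun p => e p.1) (e x) → ∃ b, (x, b) ∈ P

lemma PIso.swap {e f : Equiv.Perm ℕ} {P : Finset (ℕ × ℕ)} (h : PIso H e f P) :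
    PIso H f e (P.image Prod.swap) := by
  obtain ⟨g, g1, g2⟩ := h
  refine ⟨g⁻¹, H.inv_mem g1, ?_⟩
  simp only [Finset.forall_mem_image]
  intro p hp
  exact Equiv.Perm.inv_eq_iff_eq.mpr (g2 p hp).symm

lemma PCl.swap {e f : Equiv.Perm ℕ} {P : Finset (ℕ × ℕ)} (h : PIso H e f P) (hc : PCl H e P) :
    PCl H f (P.image Prod.swap) := by
  obtain ⟨g, g1, g2⟩ := h
  intro y hy
  have h1 : Alg H (P.image fun p => e p.1) (g⁻¹ (f y)) := hy.map' (H.inv_mem g1) (by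
    intro b hb
    obtain ⟨q, hq, rfl⟩ := Finset.mem_image.mp hb
    obtain ⟨p, hp, rfl⟩ := Finset.mem_image.mp hq
    exact Finset.mem_image.mpr ⟨p, hp, (Equiv.Perm.inv_eq_iff_eq.mpr (g2 p hp).symm).symm⟩)
  obtain ⟨b, hb⟩ := hc (e⁻¹ (g⁻¹ (f y))) (by simpa using h1)
  have h2 := g2 _ hb
  simp only [Equiv.Perm.coe_inv, Equiv.apply_symm_apply, EmbeddingLike.apply_eq_iff_eq] at h2
  subst h2
  exact ⟨_, Finset.mem_image.mpr ⟨_, hb, rfl⟩⟩

lemma extend_set {k : ℕ} {e f : Equiv.Perm ℕ} {P : Finset (ℕ × ℕ)} (hP : PIso H e f P)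
    (r : ℕ → Fin k) (hr : ∀ (T : Finset ℕ) (z : ℕ), z ∉ T →
      Alg H ((P.image fun p => e p.1) ∪ T) z → ¬ Alg H (P.image fun p => e p.1) z →
      ∃ t ∈ T, r t < r z) (X : Finset ℕ) :
    (∀ x ∈ X, ¬ Alg H (P.image fun p => e p.1) (e x)) →
    ∃ Q, P ⊆ Q ∧ PIso H e f Q ∧ (∀ x ∈ X, ∃ b, (x, b) ∈ Q) ∧ (∀ q ∈ Q, q ∈ P ∨ q.1 ∈ X) ∧
      ∀ p ∈ Q, ∀ q ∈ Q, p ∉ P → q ∉ P → r (e p.1) = r (e q.1) → (p.1 < q.1 ↔ p.2 < q.2) := by
  classical
  induction X using Finset.induction_on_max_value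
    (fun x => toLex (OrderDual.toDual (r (e x)), x)) with
  | empty => exact fun _ => ⟨P, subset_rfl, hP, by simp, fun q hq => Or.inl hq,
      fun p hp _ _ h => absurd hp h⟩
  | insert a X ha hmax ih =>
    intro hX
    obtain ⟨Q, q1, ⟨g, g1, g2⟩, q3, q4, q5⟩ := ih fun x hx => hX x (Finset.mem_insert_of_mem hx)
    have hkey : ∀ x ∈ X, r (e a) ≤ r (e x) ∧ (r (e x) = r (e a) → x < a) := by
      intro x hx
      have hne : x ≠ a := fun h => ha (h ▸ hx)
      rcases Prod.Lex.toLex_le_toLex.mp (hmax x hx) with h | h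
      · have h' : r (e a) < r (e x) := h
        exact ⟨h'.le, fun h2 => absurd h2 h'.ne'⟩
      · have h' : r (e x) = r (e a) := h.1
        exact ⟨h'.ge, fun _ => lt_of_le_of_ne h.2 hne⟩
    have hna : ¬ Alg H (Q.image fun p => e p.1) (e a) := by
      intro h
      obtain ⟨t, ht, hlt⟩ := hr (X.image e) (e a) (by
        intro h1
        obtain ⟨x, hx, h2⟩ := Finset.mem_image.mp h1
        exact ha (e.injective h2 ▸ hx)) (h.mono (by
        intro b hb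
        obtain ⟨q, hq, rfl⟩ := Finset.mem_image.mp hb
        rcases q4 q hq with h1 | h1
        · exact Finset.mem_union_left _ (Finset.mem_image_of_mem (fun p => e p.1) h1)
        · exact Finset.mem_union_right _ (Finset.mem_image_of_mem _ h1)))
        (hX a (Finset.mem_insert_self _ _))
      obtain ⟨x, hx, rfl⟩ := Finset.mem_image.mp ht
      exact absurd hlt (not_lt.mpr (hkey x hx).1)
    obtain ⟨u, u1, u2, u3⟩ := exists_move hna
      ((Set.finite_Iic (Q.sup Prod.snd)).image fun y => g⁻¹ (f y))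
    obtain ⟨m, hm0⟩ : ∃ m, m = f⁻¹ (g (u (e a))) := ⟨_, rfl⟩
    have hm : Q.sup Prod.snd < m := by
      by_contra h
      exact u3 ⟨m, not_lt.mp h, by simp [hm0]⟩
    have hQm : ∀ q ∈ Q, q.2 < m := fun q hq =>
      lt_of_le_of_lt (Finset.le_sup (f := Prod.snd) hq) hm
    refine ⟨insert (a, m) Q, q1.trans (Finset.subset_insert _ _),
      ⟨g * u, H.mul_mem g1 u1, fun p hp => ?_⟩, fun x hx => ?_, fun q hq => ?_, ?_⟩
    · rcases Finset.mem_insert.mp hp with rfl | hp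
      · simp [hm0]
      · rw [Equiv.Perm.mul_apply, u2 _ (Finset.mem_image_of_mem (fun p => e p.1) hp), g2 p hp]
    · rcases Finset.mem_insert.mp hx with rfl | hx
      · exact ⟨m, Finset.mem_insert_self _ _⟩
      · obtain ⟨b, hb⟩ := q3 x hx
        exact ⟨b, Finset.mem_insert_of_mem hb⟩
    · rcases Finset.mem_insert.mp hq with rfl | hq
      · exact Or.inr (Finset.mem_insert_self _ _)
      · exact (q4 q hq).imp id Finset.mem_insert_of_mem
    · intro p hp q hq hp' hq' hrr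
      rcases Finset.mem_insert.mp hp with rfl | hp <;> rcases Finset.mem_insert.mp hq with rfl | hq
      · simp
      · have a1 := (hkey _ ((q4 q hq).resolve_left hq')).2 hrr.symm
        have a2 := hQm q hq
        simp only
        omega
      · have a1 := (hkey _ ((q4 p hp).resolve_left hp')).2 hrr
        have a2 := hQm p hp
        simp only
        omega
      · exact q5 p hp q hq hp' hq' hrr

lemma round_forth {k : ℕ} (hlf : ∀ B : Finset ℕ, {x | Alg H B x}.Finite) (hk : Ranked H k)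
    {e f : Equiv.Perm ℕ} {P : Finset (ℕ × ℕ)} (hP : PIso H e f P) (hc : PCl H e P) (μ : ℕ) :
    ∃ Q, P ⊆ Q ∧ PIso H e f Q ∧ PCl H e Q ∧ (∀ x ≤ μ, ∃ b, (x, b) ∈ Q) ∧
      ∃ c : ℕ × ℕ → Fin k, ∀ p ∈ Q, ∀ q ∈ Q, p ∉ P → q ∉ P → c p = c q →
        (p.1 < q.1 ↔ p.2 < q.2) := by
  classical
  obtain ⟨r, hr⟩ := hk (P.image fun p => e p.1)
  obtain ⟨C, hC⟩ : ∃ C : Finset ℕ, ∀ x, x ∈ C ↔
      Alg H ((P.image fun p => e p.1) ∪ (Finset.range (μ + 1)).image e) (e x) :=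
    ⟨((hlf ((P.image fun p => e p.1) ∪ (Finset.range (μ + 1)).image e)).preimage
      e.injective.injOn).toFinset, fun x => by simp⟩
  obtain ⟨Q, q1, q2, q3, q4, q5⟩ := extend_set hP r hr
    (C.filter fun x => ¬ Alg H (P.image fun p => e p.1) (e x))
    fun x hx => (Finset.mem_filter.mp hx).2
  have hCQ : ∀ x ∈ C, ∃ b, (x, b) ∈ Q := by
    intro x hx
    by_cases h : Alg H (P.image fun p => e p.1) (e x)
    · obtain ⟨b, hb⟩ := hc x h
      exact ⟨b, q1 hb⟩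
    · exact q3 x (Finset.mem_filter.mpr ⟨hx, h⟩)
  refine ⟨Q, q1, q2, fun x hx => hCQ x ((hC x).mpr (hx.cut fun y hy => ?_)),
    fun x hx => hCQ x ((hC x).mpr (alg_of_mem (Finset.mem_union_right _
      (Finset.mem_image_of_mem _ (Finset.mem_range.mpr (Nat.lt_succ_of_le hx)))))),
    fun p => r (e p.1), q5⟩
  obtain ⟨q, hq, rfl⟩ := Finset.mem_image.mp hy
  rcases q4 q hq with h | h
  · exact alg_of_mem (Finset.mem_union_left _ (Finset.mem_image_of_mem (fun p => e p.1) h))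
  · exact (hC _).mp (Finset.mem_filter.mp h).1

lemma round_both {k : ℕ} (hlf : ∀ B : Finset ℕ, {x | Alg H B x}.Finite) (hk : Ranked H k)
    {e f : Equiv.Perm ℕ} {P : Finset (ℕ × ℕ)} (hP : PIso H e f P ∧ PCl H e P) (μ : ℕ) :
    ∃ R, P ⊆ R ∧ (PIso H e f R ∧ PCl H e R) ∧ (∀ x ≤ μ, ∃ b, (x, b) ∈ R) ∧
      (∀ y ≤ μ, ∃ a, (a, y) ∈ R) ∧
      ∃ c : ℕ × ℕ → Fin k ⊕ Fin k, ∀ p ∈ R, ∀ q ∈ R, p ∉ P → q ∉ P → c p = c q →
        (p.1 < q.1 ↔ p.2 < q.2) := by
  classical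
  obtain ⟨Q, q1, q2, q3, q4, c, q5⟩ := round_forth hlf hk hP.1 hP.2 μ
  obtain ⟨R, r1, r2, r3, r4, d, r5⟩ := round_forth hlf hk q2.swap (q3.swap q2) μ
  have hsub : Q ⊆ R.image Prod.swap := by
    intro p hp
    exact Finset.mem_image.mpr ⟨p.swap, r1 (Finset.mem_image_of_mem _ hp), by simp⟩
  refine ⟨R.image Prod.swap, q1.trans hsub, ⟨r2.swap, r3.swap r2⟩, fun x hx => ?_, fun y hy => ?_,
    fun p => if p ∈ Q then Sum.inl (c p) else Sum.inr (d p.swap), ?_⟩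
  · obtain ⟨b, hb⟩ := q4 x hx
    exact ⟨b, hsub hb⟩
  · obtain ⟨a, ha⟩ := r4 y hy
    exact ⟨a, Finset.mem_image.mpr ⟨(y, a), ha, rfl⟩⟩
  · intro p hp q hq hp' hq' hcc
    by_cases a1 : p ∈ Q <;> by_cases a2 : q ∈ Q <;> simp only [a1, a2, if_true, if_false] at hcc
    · exact q5 p a1 q a2 hp' hq' (Sum.inl.inj hcc)
    · exact absurd hcc Sum.inl_ne_inr
    · exact absurd hcc Sum.inr_ne_inl
    · obtain ⟨p', b1, rfl⟩ := Finset.mem_image.mp hp
      obtain ⟨q', b2, rfl⟩ := Finset.mem_image.mp hq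
      have hn : ∀ w : ℕ × ℕ, w.swap ∉ Q → w ∉ Q.image Prod.swap := by
        intro w hw h
        obtain ⟨w', c1, rfl⟩ := Finset.mem_image.mp h
        exact hw (by simpa using c1)
      exact (r5 p' b1 q' b2 (hn _ a1) (hn _ a2) (by simpa using Sum.inr.inj hcc)).symm

theorem fact_of_ranked {k : ℕ} (hlf : ∀ B : Finset ℕ, {x | Alg H B x}.Finite) (hk : Ranked H k)
    (hcl : ∀ g : Equiv.Perm ℕ, (∀ n, ∃ h ∈ H, ∀ x < n, h x = g x) → g ∈ H) (g : Equiv.Perm ℕ) :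
    ∃ s : Equiv.Perm ℕ, ∃ h ∈ H, g = s * h ∧ PwInc s := by
  classical
  choose F hF1 hF2 hF3 hF4 col hF5 using
    fun (μ : ℕ) (P : {P : Finset (ℕ × ℕ) // PIso H 1 g⁻¹ P ∧ PCl H 1 P}) => round_both hlf hk P.2 μ
  obtain ⟨A, hA⟩ : ∃ A : Finset ℕ, ∀ x, x ∈ A ↔ Alg H ∅ x :=
    ⟨(hlf ∅).toFinset, fun x => by simp⟩
  have h0 : PIso H 1 g⁻¹ (A.image fun x => (x, g x)) ∧ PCl H 1 (A.image fun x => (x, g x)) := by
    refine ⟨⟨1, H.one_mem, ?_⟩, fun x hx => ⟨g x, Finset.mem_image_of_mem _ ((hA x).mpr ?_)⟩⟩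
    · simp only [Finset.forall_mem_image]
      intro x _
      simp
    · refine Alg.cut hx fun y hy => ?_
      obtain ⟨q, hq, rfl⟩ := Finset.mem_image.mp hy
      obtain ⟨w, hw, rfl⟩ := Finset.mem_image.mp hq
      exact (hA w).mp hw
  let bd : ℕ → Finset (ℕ × ℕ) → ℕ := fun n P => max n (max (P.sup Prod.fst) (P.sup Prod.snd))
  let S' : ℕ → {P : Finset (ℕ × ℕ) // PIso H 1 g⁻¹ P ∧ PCl H 1 P} := fun n =>
    Nat.rec ⟨_, h0⟩ (fun n P => ⟨F (bd n P.1) P, hF2 _ P⟩) n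
  obtain ⟨S, c, hS0, hmono, hgood, hd, hr, hcol⟩ : ∃ (S : ℕ → Finset (ℕ × ℕ))
      (c : ℕ → ℕ × ℕ → Fin k ⊕ Fin k), (∀ p ∈ S 0, p.1 ∈ A) ∧ Monotone S ∧
      (∀ n, PIso H 1 g⁻¹ (S n)) ∧ (∀ n, ∀ x ≤ bd n (S n), ∃ b, (x, b) ∈ S (n + 1)) ∧
      (∀ n, ∀ y ≤ bd n (S n), ∃ a, (a, y) ∈ S (n + 1)) ∧
      ∀ n, ∀ p ∈ S (n + 1), ∀ q ∈ S (n + 1), p ∉ S n → q ∉ S n → c n p = c n q →
        (p.1 < q.1 ↔ p.2 < q.2) :=
    ⟨fun n => (S' n).1, fun n => col (bd n (S' n).1) (S' n), by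
        intro p hp
        obtain ⟨w, hw, rfl⟩ := Finset.mem_image.mp hp
        exact hw,
      monotone_nat_of_le_succ (fun n => hF1 _ (S' n)), fun n => (S' n).2.1,
      fun n => hF3 _ (S' n), fun n => hF4 _ (S' n), fun n => hF5 _ (S' n)⟩
  choose s hs using fun n => hd n n (le_max_left _ _)
  have huniq : ∀ {p q : ℕ × ℕ} {i j : ℕ}, p ∈ S i → q ∈ S j → (p.1 = q.1 ↔ p.2 = q.2) := by
    intro p q i j hp hq
    obtain ⟨h, _, a⟩ := hgood (max i j)
    have a1 := a p (hmono (le_max_left _ _) hp)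
    have a2 := a q (hmono (le_max_right _ _) hq)
    simp only [Equiv.Perm.coe_one, id_eq] at a1 a2
    constructor
    · intro b
      rw [b, a2] at a1
      exact (g⁻¹.injective a1).symm
    · intro b
      rw [b, ← a2] at a1
      exact h.injective a1
  have hinj : Function.Injective s := fun x y hxy => (huniq (hs x) (hs y)).mpr hxy
  have hsurj : Function.Surjective s := by
    intro n
    obtain ⟨x, hx⟩ := hr n n (le_max_left _ _)
    exact ⟨x, (huniq (hs x) hx).mp rfl⟩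
  have hmem : g⁻¹ * Equiv.ofBijective s ⟨hinj, hsurj⟩ ∈ H := by
    refine hcl _ fun n => ?_
    obtain ⟨h, a, b⟩ := hgood n
    exact ⟨h, a, fun x hx => b _ (hmono (show x + 1 ≤ n from hx) (hs x))⟩
  refine ⟨Equiv.ofBijective s ⟨hinj, hsurj⟩, _, H.inv_mem hmem, by simp, ?_⟩
  have hex : ∀ x, ∃ n, (x, s x) ∈ S (n + 1) := fun x => ⟨x, hs x⟩
  let t : ℕ → ℕ := fun x => Nat.find (hex x)
  have ht1 : ∀ x, (x, s x) ∈ S (t x + 1) := fun x => Nat.find_spec (hex x)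
  have ht2 : ∀ x, x ∉ A → (x, s x) ∉ S (t x) := by
    intro x hx h
    rcases Nat.eq_zero_or_pos (t x) with b | b
    · rw [b] at h
      exact hx (hS0 _ h)
    · have : t x ≤ t x - 1 := Nat.find_min' (hex x) (by rw [Nat.sub_add_cancel b]; exact h)
      omega
  have hfar : ∀ x y, y ∉ A → t x + 2 ≤ t y → x < y ∧ s x < s y := by
    intro x y hy hxy
    have b1 : x ≤ bd (t x + 1) (S (t x + 1)) :=
      ((Finset.le_sup (f := Prod.fst) (ht1 x)).trans (le_max_left _ _)).trans (le_max_right _ _)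
    have b2 : s x ≤ bd (t x + 1) (S (t x + 1)) :=
      ((Finset.le_sup (f := Prod.snd) (ht1 x)).trans (le_max_right _ _)).trans (le_max_right _ _)
    constructor
    · by_contra h
      obtain ⟨b, hb⟩ := hd (t x + 1) y ((not_lt.mp h).trans b1)
      have e : b = s y := (huniq hb (hs y)).mp rfl
      exact ht2 y hy (hmono hxy (e ▸ hb))
    · by_contra h
      obtain ⟨a, ha⟩ := hr (t x + 1) (s y) ((not_lt.mp h).trans b2)
      have e : a = y := (huniq ha (hs y)).mpr rfl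
      exact ht2 y hy (hmono hxy (e ▸ ha))
  refine pwInc_of_finite _ (ι := A ⊕ (Bool × (Fin k ⊕ Fin k)))
    (fun x => if hx : x ∈ A then Sum.inl ⟨x, hx⟩
      else Sum.inr (decide (t x % 2 = 0), c (t x) (x, s x))) ?_
  intro x y hxy hlt
  show s x < s y
  by_cases a1 : x ∈ A <;> by_cases a2 : y ∈ A <;> simp only [a1, a2, dite_true, dite_false] at hxy
  · have := congrArg Subtype.val (Sum.inl.inj hxy)
    simp only at this
    omega
  · exact absurd hxy Sum.inl_ne_inr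
  · exact absurd hxy Sum.inr_ne_inl
  · obtain ⟨b1, b2⟩ := Prod.mk.inj (Sum.inr.inj hxy)
    rw [decide_eq_decide] at b1
    rcases lt_trichotomy (t x) (t y) with h | h | h
    · exact (hfar x y a2 (by omega)).2
    · rw [← h] at b2
      exact (hcol (t x) _ (ht1 x) _ (h ▸ ht1 y) (ht2 x a1) (h ▸ ht2 y a2) b2).mp hlt
    · have := (hfar y x a1 (by omega)).1
      omega

end Pool.Agent.P.MP_8f228a_al.Cls
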