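import Pool.Agent.P.MP_8f228a_al.AlgNec
import Pool.Agent.P.MP_8f228a_al.RankSuff

/-! If any two orders of type omega are matched piecewise, the algebraic closure has bounded
rank. -/

namespace Pool.Agent.P.MP_8f228a_al.Cls

open Pool.Agent.P.MP_8f228a_al

variable {H : Subgroup (Equiv.Perm ℕ)}

/-- An order whose long initial segments are algebraically closed. -/
lemma shell_order' (hlf : ∀ B : Finset ℕ, {x | Alg H B x}.Finite)
    (hae : ∀ (B : Finset ℕ) (y z : ℕ), ¬ Alg H B y → Inter H B y z → y = z) :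
    ∃ v : Equiv.Perm ℕ, ∀ (T : Finset ℕ) (z : ℕ), Alg H T z → z ∉ T → ¬ Alg H ∅ z →
      ∃ t ∈ T, v z < v t := by
  classical
  have hstep : ∀ C : Finset ℕ, (∀ x, Alg H C x → x ∈ C) → ∃ z, z ∉ C ∧
      Alg H (insert (sInf {n | n ∉ C}) C) z ∧ ∀ x, Alg H (insert z C) x → x ∈ insert z C := by
    intro C hC
    have hn : sInf {n | n ∉ C} ∉ C :=
      Nat.sInf_mem (s := {n | n ∉ C}) (Infinite.exists_notMem_finset C)
    obtain ⟨z, ⟨a1, a2⟩, a3⟩ := exists_minimalFor_of_wellFoundedLT
      (fun z => z ∉ C ∧ Alg H (insert (sInf {n | n ∉ C}) C) z)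
      (fun z => {x | Alg H (insert z C) x}.ncard)
      ⟨_, hn, alg_of_mem (Finset.mem_insert_self _ _)⟩
    refine ⟨z, a1, a2, fun x hx => ?_⟩
    by_contra hxC
    rw [Finset.mem_insert, not_or] at hxC
    have hsub : {w | Alg H (insert x C) w} ⊆ {w | Alg H (insert z C) w} := fun w hw => hx.step hw
    have hle := a3 (j := x) ⟨hxC.2, a2.step hx⟩ (Set.ncard_le_ncard hsub (hlf _))
    have heq := Set.eq_of_subset_of_ncard_le hsub hle (hlf _)
    have hz : z ∈ {w | Alg H (insert x C) w} := by
      rw [heq]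
      exact alg_of_mem (Finset.mem_insert_self _ _)
    exact hxC.1 (hae C x z (fun a => hxC.2 (hC x a)) ⟨hz, hx⟩)
  choose! nz n1 n2 n3 using hstep
  obtain ⟨A, hA⟩ : ∃ A : Finset ℕ, ∀ x, x ∈ A ↔ Alg H ∅ x :=
    ⟨(hlf ∅).toFinset, fun x => by simp⟩
  let C : ℕ → Finset ℕ := fun n => Nat.rec A (fun _ S => insert (nz S) S) n
  have hCs : ∀ i, C (i + 1) = insert (nz (C i)) (C i) := fun i => rfl
  have hCc : ∀ i x, Alg H (C i) x → x ∈ C i := by
    intro i
    induction i with
    | zero => exact fun x hx => (hA x).mpr (Alg.cut hx fun y hy => (hA y).mp hy)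
    | succ i ih => exact n3 _ ih
  have hCm : Monotone C := monotone_nat_of_le_succ fun i => Finset.subset_insert _ _
  have hCcard : ∀ i, i ≤ (C i).card := by
    intro i
    induction i with
    | zero => exact Nat.zero_le _
    | succ i ih => rw [hCs, Finset.card_insert_of_notMem (n1 _ (hCc i))]; omega
  have hex : ∀ n, ∃ i, ∀ m < n, m ∈ C i := by
    intro n
    induction n with
    | zero => exact ⟨0, by simp⟩
    | succ n ih =>
      obtain ⟨i, hi⟩ := ih
      have : ∃ j, n ∈ C (i + j) := by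
        by_contra hno
        push Not at hno
        have hin : ∀ j, ∀ x ∈ C (i + j), Alg H (insert n (C i)) x := by
          intro j
          induction j with
          | zero => exact fun x hx => alg_of_mem (Finset.mem_insert_of_mem hx)
          | succ j ihj =>
            intro x hx
            rw [← add_assoc, hCs] at hx
            rcases Finset.mem_insert.mp hx with rfl | hx
            · have e : sInf {n | n ∉ C (i + j)} = n := by
                refine le_antisymm (Nat.sInf_le (hno j)) (le_of_not_gt fun hlt => ?_)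
                exact Nat.sInf_mem (s := {n | n ∉ C (i + j)}) ⟨n, hno j⟩
                  (hCm (Nat.le_add_right i j) (hi _ hlt))
              have a := n2 _ (hCc (i + j))
              rw [e] at a
              refine a.cut fun y hy => ?_
              rcases Finset.mem_insert.mp hy with rfl | hy
              · exact alg_of_mem (Finset.mem_insert_self _ _)
              · exact ihj y hy
            · exact ihj x hx
        obtain ⟨N, hN⟩ : ∃ N, N = (hlf (insert n (C i))).toFinset.card + 1 := ⟨_, rfl⟩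
        have hle := Finset.card_le_card (s := C (i + N))
          (t := (hlf (insert n (C i))).toFinset) fun x hx => by simpa using hin N x hx
        have := hCcard (i + N)
        omega
      obtain ⟨j, hj⟩ := this
      refine ⟨i + j, fun m hm => ?_⟩
      rcases Nat.lt_succ_iff_lt_or_eq.mp hm with a | rfl
      · exact hCm (Nat.le_add_right i j) (hi m a)
      · exact hj
  have hex' : ∀ x, ∃ i, x ∈ C i := fun x => by
    obtain ⟨i, hi⟩ := hex (x + 1)
    exact ⟨i, hi x (Nat.lt_succ_self x)⟩
  let κ : ℕ → ℕ := fun x => sInf {i | x ∈ C i}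
  have hκ1 : ∀ x, x ∈ C (κ x) := fun x => Nat.sInf_mem (s := {i | x ∈ C i}) (hex' x)
  have hκ2 : ∀ x i, x ∈ C i → κ x ≤ i := fun x i h => Nat.sInf_le (s := {i | x ∈ C i}) h
  have hκ3 : ∀ x i, κ x = i + 1 → x = nz (C i) := by
    intro x i hi
    have a := hκ1 x
    rw [hi, hCs] at a
    rcases Finset.mem_insert.mp a with a | a
    · exact a
    · have := hκ2 x i a
      omega
  obtain ⟨v, hv⟩ := perm_of_key κ fun x =>
    (C (κ x)).finite_toSet.subset fun y hy => hCm hy (hκ1 y)
  refine ⟨v, fun T z hz hzT h0 => ?_⟩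
  have hT : T.Nonempty := by
    rw [Finset.nonempty_iff_ne_empty]
    rintro rfl
    exact h0 hz
  obtain ⟨t, ht, hmax⟩ := Finset.exists_max_image T κ hT
  refine ⟨t, ht, hv z t (lt_of_le_of_ne
    (hκ2 z (κ t) (hCc (κ t) z (hz.mono fun w hw => hCm (hmax w hw) (hκ1 w)))) fun h => ?_)⟩
  rcases Nat.eq_zero_or_pos (κ z) with b | b
  · have a := hκ1 z
    rw [b] at a
    exact h0 ((hA z).mp a)
  · have e1 := hκ3 z (κ z - 1) (by omega)
    have e2 := hκ3 t (κ z - 1) (by omega)
    exact hzT ((e1.trans e2.symm) ▸ ht)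

open Classical in
variable (H) in
/-- Removing the extreme points, repeatedly. -/
noncomputable def peel (B K : Finset ℕ) : ℕ → Finset ℕ
  | 0 => K
  | i + 1 => (peel B K i).filter fun x => Alg H (B ∪ (peel B K i).erase x) x

lemma mem_peel {B K : Finset ℕ} {i x : ℕ} :
    x ∈ peel H B K (i + 1) ↔ x ∈ peel H B K i ∧ Alg H (B ∪ (peel H B K i).erase x) x := by
  simp only [peel, Finset.mem_filter]

lemma peel_anti (B K : Finset ℕ) : Antitone (peel H B K) :=
  antitone_nat_of_succ_le fun _ _ hx => (mem_peel.mp hx).1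

lemma peel_mono {B K K' : Finset ℕ} (h : K ⊆ K') (i : ℕ) : peel H B K i ⊆ peel H B K' i := by
  induction i with
  | zero => exact h
  | succ i ih =>
    intro x hx
    rw [mem_peel] at hx ⊢
    exact ⟨ih hx.1, hx.2.mono (Finset.union_subset_union_right (Finset.erase_subset_erase _ ih))⟩

lemma peel_map {B K : Finset ℕ} {g : Equiv.Perm ℕ} (hg : g ∈ H) (hB : ∀ b ∈ B, g b = b) (i : ℕ) :
    ∀ x ∈ peel H B K i, g x ∈ peel H B (K.image g) i := by
  induction i with
  | zero => exact fun x hx => Finset.mem_image_of_mem _ hx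
  | succ i ih =>
    intro x hx
    rw [mem_peel] at hx ⊢
    refine ⟨ih x hx.1, hx.2.map' hg fun b hb => ?_⟩
    rcases Finset.mem_union.mp hb with hb | hb
    · rw [hB b hb]
      exact Finset.mem_union_left _ hb
    · rw [Finset.mem_erase] at hb
      exact Finset.mem_union_right _
        (Finset.mem_erase.mpr ⟨fun h => hb.1 (g.injective h), ih b hb.2⟩)

lemma ranked_of_peel (k : ℕ) (h : ∀ B K : Finset ℕ, (∀ x ∈ K, ¬ Alg H B x) → peel H B K k = ∅) :
    Ranked H (k + 1) := by
  classical
  intro B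
  let D : ℕ → ℕ → Prop := fun z j => ∃ K : Finset ℕ, (∀ x ∈ K, ¬ Alg H B x) ∧ z ∈ peel H B K j
  refine ⟨fun z => ⟨Nat.findGreatest (D z) k, Nat.lt_succ_of_le (Nat.findGreatest_le k)⟩, ?_⟩
  intro T z hzT hz hnz
  have hD0 : ∀ t, ¬ Alg H B t → D t 0 := fun t ht =>
    ⟨{t}, by simpa using ht, Finset.mem_singleton_self t⟩
  obtain ⟨T', hT'⟩ : ∃ T' : Finset ℕ, ∀ t, t ∈ T' ↔ t ∈ T ∧ ¬ Alg H B t :=
    ⟨T.filter fun t => ¬ Alg H B t, fun t => Finset.mem_filter⟩
  have hz' : Alg H (B ∪ T') z := hz.cut fun y hy => by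
    rcases Finset.mem_union.mp hy with a | a
    · exact alg_of_mem (Finset.mem_union_left _ a)
    · by_cases b : Alg H B y
      · exact b.mono Finset.subset_union_left
      · exact alg_of_mem (Finset.mem_union_right _ ((hT' y).mpr ⟨a, b⟩))
  have hne : T'.Nonempty := by
    rw [Finset.nonempty_iff_ne_empty]
    rintro rfl
    exact hnz (by simpa using hz')
  obtain ⟨t0, ht0, hmin⟩ := Finset.exists_min_image T' (fun t => Nat.findGreatest (D t) k) hne
  refine ⟨t0, ((hT' t0).mp ht0).1, ?_⟩
  obtain ⟨j, hj⟩ : ∃ j, j = Nat.findGreatest (D t0) k := ⟨_, rfl⟩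
  have hK : ∀ t ∈ T', ∃ K : Finset ℕ, (∀ x ∈ K, ¬ Alg H B x) ∧ t ∈ peel H B K j := by
    intro t ht
    obtain ⟨K, a, b⟩ : D t (Nat.findGreatest (D t) k) :=
      Nat.findGreatest_spec (Nat.zero_le k) (hD0 t ((hT' t).mp ht).2)
    exact ⟨K, a, peel_anti B K (hj ▸ hmin t ht) b⟩
  choose! K K1 K2 using hK
  have hall : ∀ x ∈ insert z (T'.biUnion K), ¬ Alg H B x := by
    intro x hx
    rcases Finset.mem_insert.mp hx with rfl | hx
    · exact hnz
    · obtain ⟨t, a, b⟩ := Finset.mem_biUnion.mp hx
      exact K1 t a x b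
  have hzp : ∀ i ≤ j + 1, z ∈ peel H B (insert z (T'.biUnion K)) i := by
    intro i
    induction i with
    | zero => exact fun _ => Finset.mem_insert_self _ _
    | succ i ih =>
      intro hi
      refine mem_peel.mpr ⟨ih (by omega), hz'.mono (Finset.union_subset_union_right fun t ht => ?_)⟩
      refine Finset.mem_erase.mpr ⟨fun e => hzT (e ▸ ((hT' t).mp ht).1), ?_⟩
      exact peel_anti B _ (show i ≤ j by omega) (peel_mono
        ((Finset.subset_biUnion_of_mem K ht).trans (Finset.subset_insert _ _)) j (K2 t ht))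
  have hjk : j + 1 ≤ k := by
    by_contra hc
    have := hzp k (by omega)
    rw [h B _ hall] at this
    exact Finset.notMem_empty z this
  show Nat.findGreatest (D t0) k < Nat.findGreatest (D z) k
  rw [← hj]
  exact Nat.le_findGreatest hjk ⟨_, hall, hzp _ le_rfl⟩

theorem ranked_of_match (hM : Match H) : ∃ k, Ranked H k := by
  classical
  by_contra hno
  have hex : ∀ k, ∃ B K : Finset ℕ, (∀ x ∈ K, ¬ Alg H B x) ∧ (peel H B K k).Nonempty := by
    intro k
    by_contra h
    push Not at h
    exact hno ⟨k + 1, ranked_of_peel k h⟩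
  choose B K K1 K2 using hex
  obtain ⟨v, hv⟩ := shell_order' (locally_finite hM) (anti_exchange hM)
  choose g g1 g2 g3 using fun (k : ℕ) (F : Finset ℕ) => separation (B k) (K k) (K1 k) F
  let U : ℕ → Finset ℕ := fun n =>
    Nat.rec ∅ (fun i S => S ∪ (K (Nat.unpair i).1).image (g (Nat.unpair i).1 S)) n
  have hUm : Monotone U := monotone_nat_of_le_succ fun i => Finset.subset_union_left
  let G : ℕ → Finset ℕ := fun n => (K (Nat.unpair n).1).image (g (Nat.unpair n).1 (U n))
  have hG1 : ∀ n, ∀ x ∈ G n, x ∉ U n := by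
    intro n x hx
    obtain ⟨w, a, rfl⟩ := Finset.mem_image.mp hx
    exact g3 _ _ w a
  have hG2 : ∀ i j, i < j → G i ⊆ U j := fun i j h =>
    Finset.Subset.trans Finset.subset_union_right (hUm (show i + 1 ≤ j from h))
  have hGd : ∀ i j x, x ∈ G i → x ∈ G j → i = j := by
    intro i j y hi hj
    rcases lt_trichotomy i j with a | a | a
    · exact absurd (hG2 i j a hi) (hG1 j y hj)
    · exact a
    · exact absurd (hG2 j i a hj) (hG1 i y hi)
  let W : ℕ → ℕ → Finset ℕ := fun n i => peel H (B (Nat.unpair n).1) (G n) i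
  have hWG : ∀ n i, W n i ⊆ G n := fun n i => peel_anti _ _ (Nat.zero_le i)
  obtain ⟨u, hu⟩ := layer_order
    (fun m => W (Nat.unpair m).1 (Nat.unpair m).2 \ W (Nat.unpair m).1 ((Nat.unpair m).2 + 1)) (by
    intro i j x hi hj
    rw [Finset.mem_sdiff] at hi hj
    have e := hGd _ _ x (hWG _ _ hi.1) (hWG _ _ hj.1)
    rw [← Nat.pair_unpair i, ← Nat.pair_unpair j, ← e]
    rw [← e] at hj
    congr 1
    rcases lt_trichotomy (Nat.unpair i).2 (Nat.unpair j).2 with a | a | a
    · exact absurd (peel_anti _ _ (show _ + 1 ≤ _ from a) hj.1) hi.2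
    · exact a
    · exact absurd (peel_anti _ _ (show _ + 1 ≤ _ from a) hi.1) hj.2) id Function.injective_id
  obtain ⟨h, hh, k, c, hc⟩ := hM u v
  obtain ⟨m, hm⟩ : ∃ m, ∀ b ∈ B k, v (h b) ≤ m :=
    ⟨(B k).sup fun b => v (h b), fun b hb => Finset.le_sup (f := fun b => v (h b)) hb⟩
  obtain ⟨n, hn1, hn2⟩ : ∃ n, (Nat.unpair n).1 = k ∧ ∀ x ∈ G n, m < v (h x) := by
    by_contra hc'
    push Not at hc'
    choose w w1 w2 using fun j => hc' (Nat.pair k j) (by simp)
    have hinj : Function.Injective fun j => v (h (w j)) := by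
      intro i j e
      have e' : w i = w j := h.injective (v.injective e)
      exact (Nat.pair_eq_pair.mp (hGd _ _ _ (w1 i) (e' ▸ w1 j))).2
    exact Set.infinite_range_of_injective hinj ((Set.finite_Iic m).subset (by
      rintro _ ⟨j, rfl⟩
      exact w2 j))
  have hne : ∀ i : Fin (k + 1), (W n i).Nonempty := by
    intro i
    obtain ⟨x, hx⟩ := K2 k
    refine ⟨g k (U n) x, peel_anti _ _ (Nat.lt_succ_iff.mp i.isLt) ?_⟩
    have := peel_map (g1 k (U n)) (g2 k (U n)) k x hx
    simpa only [G, hn1] using this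
  choose x x1 x2 using fun i : Fin (k + 1) =>
    Finset.exists_max_image (W n i) (fun y => v (h y)) (hne i)
  have x3 : ∀ i : Fin (k + 1), x i ∉ W n (i + 1) := by
    intro i hi
    have a := (mem_peel.mp hi).2
    have hna : ¬ Alg H (B k) (x i) := by
      obtain ⟨w, b, e⟩ := Finset.mem_image.mp (hWG n i (x1 i))
      rw [hn1] at b e
      intro d
      have := d.map' (C := B k) (H.inv_mem (g1 k (U n))) fun y hy => by
        rw [Equiv.Perm.inv_eq_iff_eq.mpr (g2 k (U n) y hy).symm]
        exact hy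
      rw [← e] at this
      exact K1 k w b (by simpa using this)
    obtain ⟨t, t1, t2⟩ := hv _ _ (a.map hh) (by
      intro d
      obtain ⟨w, b, e⟩ := Finset.mem_image.mp d
      rw [h.injective e, hn1] at b
      rcases Finset.mem_union.mp b with b | b
      · exact hna (alg_of_mem b)
      · exact Finset.notMem_erase _ _ b) (by
      intro d
      have := d.map' (C := B k) (H.inv_mem hh) (by simp)
      exact hna (by simpa using this))
    obtain ⟨w, b, rfl⟩ := Finset.mem_image.mp t1
    rw [hn1] at b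
    rcases Finset.mem_union.mp b with b | b
    · have := hm w b
      have := hn2 _ (hWG n i (x1 i))
      omega
    · have := x2 i w (by simpa only [W, hn1] using Finset.mem_of_mem_erase b)
      omega
  obtain ⟨i, j, hij, hcij⟩ := Fintype.exists_ne_map_eq_of_card_lt (fun i => c (x i))
    (show Fintype.card (Fin k) < Fintype.card (Fin (k + 1)) by simp)
  have key : ∀ i j : Fin (k + 1), c (x i) = c (x j) → i < j → False := by
    intro i j e hlt
    have a1 := hc _ _ e (hu (Nat.pair n i) (Nat.pair n j) _ _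
      (by simpa using ⟨x1 i, x3 i⟩) (by simpa using ⟨x1 j, x3 j⟩)
      (Nat.pair_lt_pair_right n hlt))
    have a2 := x2 i (x j) (peel_anti _ _ hlt.le (x1 j))
    omega
  rcases lt_or_gt_of_ne hij with a | a
  · exact key i j hcij a
  · exact key j i hcij.symm a

end Pool.Agent.P.MP_8f228a_al.Cls
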