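import Mathlib

set_option autoImplicit false

namespace Pool.Agent.P.MP_8f228a_al

/-- A permutation of the naturals is piecewise increasing if the naturals split into finitely many
colour classes on each of which it is increasing. -/
def PwInc (g : Equiv.Perm ℕ) : Prop :=
  ∃ (k : ℕ) (c : ℕ → Fin k), ∀ x y, c x = c y → x < y → g x < g y

theorem pwInc_of_finite (g : Equiv.Perm ℕ) {ι : Type} [Finite ι] (c : ℕ → ι)
    (h : ∀ x y, c x = c y → x < y → g x < g y) : PwInc g := by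
  obtain ⟨k, ⟨e⟩⟩ := Finite.exists_equiv_fin ι
  exact ⟨k, fun x => e (c x), fun x y hxy => h x y (e.injective hxy)⟩

/-- The group of piecewise increasing permutations. -/
def stoller : Subgroup (Equiv.Perm ℕ) where
  carrier := {g | PwInc g}
  one_mem' := ⟨1, fun _ => 0, fun _ _ _ h => h⟩
  mul_mem' := by
    rintro g h ⟨k, c, hc⟩ ⟨l, d, hd⟩
    refine pwInc_of_finite _ (fun x => (c (h x), d x)) ?_
    intro x y hxy hlt
    simp only [Prod.mk.injEq] at hxy
    exact hc _ _ hxy.1 (hd _ _ hxy.2 hlt)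
  inv_mem' := by
    rintro g ⟨k, c, hc⟩
    refine ⟨k, fun x => c (g⁻¹ x), ?_⟩
    intro x y hxy hlt
    by_contra hn
    rcases (not_lt.mp hn).eq_or_lt with h | h
    · have : y = x := g⁻¹.injective h
      omega
    · have := hc _ _ hxy.symm h
      simp only [Equiv.Perm.coe_inv, Equiv.apply_symm_apply] at this
      omega

theorem swap_mem (a b : ℕ) : Equiv.swap a b ∈ stoller := by
  classical
  refine pwInc_of_finite _ (fun x => (decide (x = a), decide (x = b))) ?_
  intro x y hxy hlt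
  simp only [Prod.mk.injEq, decide_eq_decide] at hxy
  have hxa : x ≠ a := fun h => by have := hxy.1.mp h; omega
  have hxb : x ≠ b := fun h => by have := hxy.2.mp h; omega
  have hya : y ≠ a := fun h => by have := hxy.1.mpr h; omega
  have hyb : y ≠ b := fun h => by have := hxy.2.mpr h; omega
  rw [Equiv.swap_apply_of_ne_of_ne hxa hxb, Equiv.swap_apply_of_ne_of_ne hya hyb]
  exact hlt

/-- The involution reversing each block from a square to the next square. -/
def rev (n : ℕ) : ℕ := (Nat.sqrt n) * (Nat.sqrt n) + ((Nat.sqrt n) * (Nat.sqrt n) + 2 * Nat.sqrt n - n)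

theorem sqrt_of_block (k j : ℕ) (hj : j ≤ 2 * k) : Nat.sqrt (k * k + j) = k := by
  symm
  rw [Nat.eq_sqrt]
  constructor
  · omega
  · nlinarith

theorem rev_block (k j : ℕ) (hj : j ≤ 2 * k) : rev (k * k + j) = k * k + (2 * k - j) := by
  unfold rev
  rw [sqrt_of_block k j hj]
  omega

theorem exists_block (n : ℕ) : ∃ k j, j ≤ 2 * k ∧ n = k * k + j := by
  have h1 := Nat.sqrt_le n
  have h2 := Nat.lt_succ_sqrt n
  refine ⟨Nat.sqrt n, n - Nat.sqrt n * Nat.sqrt n, ?_, by omega⟩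
  simp only [Nat.succ_eq_add_one] at h2
  have : (Nat.sqrt n + 1) * (Nat.sqrt n + 1) = Nat.sqrt n * Nat.sqrt n + 2 * Nat.sqrt n + 1 := by
    ring
  omega

theorem rev_invol : Function.Involutive rev := by
  intro n
  obtain ⟨k, j, hj, rfl⟩ := exists_block n
  rw [rev_block k j hj, rev_block k _ (by omega)]
  omega

theorem stoller_ne_top : stoller ≠ ⊤ := by
  intro h
  have hm : rev_invol.toPerm rev ∈ stoller := by rw [h]; trivial
  obtain ⟨k, c, hc⟩ := hm
  have hcard : Fintype.card (Fin k) < Fintype.card (Fin (2 * k + 1)) := by simp; omega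
  obtain ⟨i, j, hij, hcij⟩ :=
    Fintype.exists_ne_map_eq_of_card_lt (fun i : Fin (2 * k + 1) => c (k * k + i)) hcard
  have key : ∀ i j : Fin (2 * k + 1), c (k * k + i) = c (k * k + j) → i < j → False := by
    intro i j h1 h2
    have h3 : (i : ℕ) < j := h2
    have := hc _ _ h1 (by omega)
    simp only [Function.Involutive.coe_toPerm] at this
    have hi := i.isLt
    have hj := j.isLt
    rw [rev_block k i (by omega), rev_block k j (by omega)] at this
    omega
  rcases lt_or_gt_of_ne hij with h1 | h1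
  · exact key i j hcij h1
  · exact key j i hcij.symm h1

/-- Finite stages of the back-and-forth construction. -/
structure Good (e f : ℕ ≃ ℚ) (P : Finset (ℕ × ℕ)) : Prop where
  iso : ∀ p ∈ P, ∀ q ∈ P, e p.1 < e q.1 ↔ f p.2 < f q.2
  ne : ∀ p ∈ P, p.1 ≠ p.2
  up : ∀ p ∈ P, ∀ q ∈ P, p.1 < p.2 → q.1 < q.2 → p.1 < q.1 → p.2 < q.2
  down : ∀ p ∈ P, ∀ q ∈ P, p.2 < p.1 → q.2 < q.1 → p.2 < q.2 → p.1 < q.1
  upInit : ∀ p ∈ P, p.1 < p.2 → ∀ a, a < p.1 → ∃ b, (a, b) ∈ P
  downInit : ∀ p ∈ P, p.2 < p.1 → ∀ b, b < p.2 → ∃ a, (a, b) ∈ P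

theorem Good.swap {e f : ℕ ≃ ℚ} {P : Finset (ℕ × ℕ)} (h : Good e f P) :
    Good f e (P.image Prod.swap) := by
  constructor
  · simp only [Finset.forall_mem_image]
    intro p hp q hq
    exact (h.iso p hp q hq).symm
  · simp only [Finset.forall_mem_image]
    intro p hp
    exact (h.ne p hp).symm
  · simp only [Finset.forall_mem_image]
    intro p hp q hq
    exact h.down p hp q hq
  · simp only [Finset.forall_mem_image]
    intro p hp q hq
    exact h.up p hp q hq
  · simp only [Finset.forall_mem_image]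
    intro p hp h1 a ha
    obtain ⟨b, hb⟩ := h.downInit p hp h1 a ha
    exact ⟨b, Finset.mem_image.mpr ⟨(b, a), hb, rfl⟩⟩
  · simp only [Finset.forall_mem_image]
    intro p hp h1 a ha
    obtain ⟨b, hb⟩ := h.upInit p hp h1 a ha
    exact ⟨b, Finset.mem_image.mpr ⟨(a, b), hb, rfl⟩⟩

theorem exists_large {e f : ℕ ≃ ℚ} {P : Finset (ℕ × ℕ)} (h : Good e f P) (n N : ℕ) :
    ∃ m, N < m ∧ (∀ p ∈ P, e p.1 < e n → f p.2 < f m) ∧ (∀ p ∈ P, e n < e p.1 → f m < f p.2) := by
  classical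
  set lo : Finset ℚ := (P.filter (fun p => e p.1 < e n)).image (fun p => f p.2) with hlo
  set hi : Finset ℚ := (P.filter (fun p => e n < e p.1)).image (fun p => f p.2) with hhi
  have hlh : ∀ x ∈ lo, ∀ y ∈ hi, x < y := by
    intro x hx y hy
    obtain ⟨p, hp, rfl⟩ := Finset.mem_image.mp hx
    obtain ⟨q, hq, rfl⟩ := Finset.mem_image.mp hy
    rw [Finset.mem_filter] at hp hq
    exact (h.iso p hp.1 q hq.1).mp (hp.2.trans hq.2)
  obtain ⟨u, hu1, hu2⟩ := Order.exists_between_finsets lo hi hlh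
  obtain ⟨v, hv1, hv2⟩ := Order.exists_between_finsets {u} hi (by simpa using hu2)
  have huv : u < v := hv1 u (by simp)
  have hinf : (f ⁻¹' Set.Ioo u v).Infinite :=
    (Set.Ioo_infinite huv).preimage (by rw [f.surjective.range_eq]; exact Set.subset_univ _)
  obtain ⟨m, hm, hNm⟩ := hinf.exists_gt N
  refine ⟨m, hNm, ?_, ?_⟩
  · intro p hp hpn
    have : f p.2 ∈ lo := Finset.mem_image.mpr ⟨p, Finset.mem_filter.mpr ⟨hp, hpn⟩, rfl⟩
    exact (hu1 _ this).trans hm.1
  · intro p hp hpn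
    have : f p.2 ∈ hi := Finset.mem_image.mpr ⟨p, Finset.mem_filter.mpr ⟨hp, hpn⟩, rfl⟩
    exact hm.2.trans (hv2 _ this)

theorem forth_step {e f : ℕ ≃ ℚ} {P : Finset (ℕ × ℕ)} (h : Good e f P) (n : ℕ)
    (hlow : ∀ a, a < n → ∃ b, (a, b) ∈ P) :
    ∃ Q, P ⊆ Q ∧ Good e f Q ∧ ∃ b, (n, b) ∈ Q := by
  classical
  by_cases hn : ∃ b, (n, b) ∈ P
  · exact ⟨P, subset_rfl, h, hn⟩
  obtain ⟨m, hm, h1, h2⟩ := exists_large h n (max n (P.sup Prod.snd))
  have hnm : n < m := lt_of_le_of_lt (le_max_left _ _) hm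
  have hPm : ∀ p ∈ P, p.2 < m := fun p hp =>
    lt_of_le_of_lt ((Finset.le_sup (f := Prod.snd) hp).trans (le_max_right _ _)) hm
  have hPn : ∀ p ∈ P, p.1 ≠ n := fun p hp hpn => hn ⟨p.2, by rw [← hpn]; exact hp⟩
  have hPn' : ∀ p ∈ P, p.1 < p.2 → p.1 < n := by
    intro p hp hlt
    rcases lt_trichotomy p.1 n with h3 | h3 | h3
    · exact h3
    · exact absurd h3 (hPn p hp)
    · exact absurd (h.upInit p hp hlt n h3) hn
  have htri : ∀ p ∈ P, e p.1 < e n ∨ e n < e p.1 := fun p hp =>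
    lt_or_gt_of_ne (fun h3 => hPn p hp (e.injective h3))
  refine ⟨insert (n, m) P, Finset.subset_insert _ _, ?_, m, Finset.mem_insert_self _ _⟩
  constructor
  · intro p hp q hq
    rcases Finset.mem_insert.mp hp with rfl | hp <;> rcases Finset.mem_insert.mp hq with rfl | hq
    · simp
    · refine ⟨h2 q hq, fun h3 => ?_⟩
      rcases htri q hq with h4 | h4
      · exact absurd (h1 q hq h4) (not_lt.mpr h3.le)
      · exact h4
    · refine ⟨h1 p hp, fun h3 => ?_⟩
      rcases htri p hp with h4 | h4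
      · exact h4
      · exact absurd (h2 p hp h4) (not_lt.mpr h3.le)
    · exact h.iso p hp q hq
  · intro p hp
    rcases Finset.mem_insert.mp hp with rfl | hp
    · exact hnm.ne
    · exact h.ne p hp
  · intro p hp q hq
    rcases Finset.mem_insert.mp hp with rfl | hp <;> rcases Finset.mem_insert.mp hq with rfl | hq
    · simp
    · intro _ h3 h4
      have := hPn' q hq h3
      simp only at h4
      omega
    · intro _ _ _
      exact hPm p hp
    · exact h.up p hp q hq
  · intro p hp q hq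
    rcases Finset.mem_insert.mp hp with rfl | hp <;> rcases Finset.mem_insert.mp hq with rfl | hq
    · simp
    · intro h3
      simp only at h3
      omega
    · intro _ h3
      simp only at h3
      omega
    · exact h.down p hp q hq
  · intro p hp hlt a ha
    rcases Finset.mem_insert.mp hp with rfl | hp
    · obtain ⟨b, hb⟩ := hlow a ha
      exact ⟨b, Finset.mem_insert_of_mem hb⟩
    · obtain ⟨b, hb⟩ := h.upInit p hp hlt a ha
      exact ⟨b, Finset.mem_insert_of_mem hb⟩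
  · intro p hp hlt b hb
    rcases Finset.mem_insert.mp hp with rfl | hp
    · simp only at hlt
      omega
    · obtain ⟨a, ha⟩ := h.downInit p hp hlt b hb
      exact ⟨a, Finset.mem_insert_of_mem ha⟩

theorem forth {e f : ℕ ≃ ℚ} (n : ℕ) : ∀ {P : Finset (ℕ × ℕ)}, Good e f P →
    ∃ Q, P ⊆ Q ∧ Good e f Q ∧ ∀ a, a < n → ∃ b, (a, b) ∈ Q := by
  induction n with
  | zero => intro P h; exact ⟨P, subset_rfl, h, by simp⟩
  | succ n ih =>
    intro P h
    obtain ⟨Q, hPQ, hQ, hlow⟩ := ih h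
    obtain ⟨R, hQR, hR, hb⟩ := forth_step hQ n hlow
    refine ⟨R, hPQ.trans hQR, hR, ?_⟩
    intro a ha
    rcases Nat.lt_succ_iff_lt_or_eq.mp ha with h1 | rfl
    · obtain ⟨b, hb⟩ := hlow a h1
      exact ⟨b, hQR hb⟩
    · exact hb

theorem both {e f : ℕ ≃ ℚ} (n : ℕ) {P : Finset (ℕ × ℕ)} (h : Good e f P) :
    ∃ Q, P ⊆ Q ∧ Good e f Q ∧ (∃ b, (n, b) ∈ Q) ∧ ∃ a, (a, n) ∈ Q := by
  classical
  obtain ⟨Q, hPQ, hQ, hlow⟩ := forth (n + 1) h
  obtain ⟨R, hQR, hR, hlow'⟩ := forth (n + 1) hQ.swap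
  have hsub : Q ⊆ R.image Prod.swap := by
    intro p hp
    exact Finset.mem_image.mpr ⟨p.swap, hQR (Finset.mem_image_of_mem _ hp), by simp⟩
  refine ⟨R.image Prod.swap, hPQ.trans hsub, hR.swap, ?_, ?_⟩
  · obtain ⟨b, hb⟩ := hlow n (by omega)
    exact ⟨b, hsub hb⟩
  · obtain ⟨a, ha⟩ := hlow' n (by omega)
    exact ⟨a, Finset.mem_image.mpr ⟨(n, a), ha, rfl⟩⟩

theorem good_empty (e f : ℕ ≃ ℚ) : Good e f ∅ := by
  constructor <;> simp

theorem exists_chain (e f : ℕ ≃ ℚ) : ∃ S : ℕ → Finset (ℕ × ℕ), Monotone S ∧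
    (∀ n, Good e f (S n)) ∧ ∀ n, (∃ b, (n, b) ∈ S (n + 1)) ∧ ∃ a, (a, n) ∈ S (n + 1) := by
  choose F hF1 hF2 hF3 using
    fun (n : ℕ) (P : {P : Finset (ℕ × ℕ) // Good e f P}) => both n P.2
  let S : ℕ → {P : Finset (ℕ × ℕ) // Good e f P} := fun n =>
    Nat.rec ⟨∅, good_empty e f⟩ (fun n P => ⟨F n P, hF2 n P⟩) n
  refine ⟨fun n => (S n).1, ?_, fun n => (S n).2, fun n => hF3 n (S n)⟩
  exact monotone_nat_of_le_succ (fun n => hF1 n (S n))

theorem exists_iso (e f : ℕ ≃ ℚ) :
    ∃ g ∈ stoller, ∀ x y : ℕ, f (g x) < f (g y) ↔ e x < e y := by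
  classical
  obtain ⟨S, hmono, hgood, hS⟩ := exists_chain e f
  choose g hg using fun n => (hS n).1
  have hboth : ∀ {p q : ℕ × ℕ} {i j : ℕ}, p ∈ S i → q ∈ S j → ∃ k, p ∈ S k ∧ q ∈ S k :=
    fun {p q i j} hp hq =>
      ⟨max i j, hmono (le_max_left _ _) hp, hmono (le_max_right _ _) hq⟩
  have hiso : ∀ x y, f (g x) < f (g y) ↔ e x < e y := by
    intro x y
    obtain ⟨k, h1, h2⟩ := hboth (hg x) (hg y)
    exact ((hgood k).iso _ h1 _ h2).symm
  have hinj : Function.Injective g := by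
    intro x y hxy
    apply e.injective
    rcases lt_trichotomy (e x) (e y) with h | h | h
    · have := (hiso x y).mpr h
      rw [hxy] at this
      exact absurd this (lt_irrefl _)
    · exact h
    · have := (hiso y x).mpr h
      rw [hxy] at this
      exact absurd this (lt_irrefl _)
  have hsurj : Function.Surjective g := by
    intro n
    obtain ⟨a, ha⟩ := (hS n).2
    refine ⟨a, ?_⟩
    obtain ⟨k, h1, h2⟩ := hboth (hg a) ha
    have h3 := (hgood k).iso _ h1 _ h2
    have h4 := (hgood k).iso _ h2 _ h1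
    simp only [lt_self_iff_false, false_iff, not_lt] at h3 h4
    exact f.injective (le_antisymm h4 h3)
  refine ⟨Equiv.ofBijective g ⟨hinj, hsurj⟩, ?_, hiso⟩
  refine pwInc_of_finite _ (fun x => decide (x < g x)) ?_
  intro x y hxy hlt
  simp only [decide_eq_decide] at hxy
  show g x < g y
  obtain ⟨k, h1, h2⟩ := hboth (hg x) (hg y)
  by_cases hx : x < g x
  · exact (hgood k).up _ h1 _ h2 hx (hxy.mp hx) hlt
  · have hy : ¬ y < g y := fun h => hx (hxy.mpr h)
    have hx' : g x < x := lt_of_le_of_ne (not_lt.mp hx) ((hgood k).ne _ h1).symm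
    have hy' : g y < y := lt_of_le_of_ne (not_lt.mp hy) ((hgood k).ne _ h2).symm
    rcases lt_trichotomy (g x) (g y) with h | h | h
    · exact h
    · have := hinj h
      omega
    · have := (hgood k).down _ h2 _ h1 hy' hx' h
      simp only at this
      omega

end Pool.Agent.P.MP_8f228a_al
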